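import Pool.Agent.H76.CL.Form

/-!
# Chen's theorem for systems of linear forms: absolute values
-/

set_option autoImplicit false

namespace Pool.Agent.H76.CL

open Finset

/-- the form `s f` -/
def flip (s : ℤ) (f : ℤ × ℤ) : ℤ × ℤ := (s * f.1, s * f.2)

theorem val_flip (s : ℤ) (f : ℤ × ℤ) (n : ℤ) : val (flip s f) n = s * val f n := by
  unfold val flip
  ring

/-- away from the root of a form its sign is constant and its values are large -/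
theorem away {a z u v δ : ℝ} (ha : 1 ≤ |a|) (hδ : 0 < δ) (h : ¬ (u - δ < z ∧ z < v + δ)) :
    ∃ s : ℤ, (s = 1 ∨ s = -1) ∧ ∀ n : ℝ, u < n → n ≤ v → δ ≤ s * (a * (n - z)) := by
  rw [not_and_or, not_lt, not_lt] at h
  rcases le_abs.1 ha with h1 | h1
  · rcases h with h | h
    · refine ⟨1, Or.inl rfl, fun n hn1 hn2 => ?_⟩
      push_cast
      nlinarith
    · refine ⟨-1, Or.inr rfl, fun n hn1 hn2 => ?_⟩
      push_cast
      nlinarith
  · rcases h with h | h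
    · refine ⟨-1, Or.inr rfl, fun n hn1 hn2 => ?_⟩
      push_cast
      nlinarith
    · refine ⟨1, Or.inl rfl, fun n hn1 hn2 => ?_⟩
      push_cast
      nlinarith

/-- one of three pieces is far from two points -/
theorem piece {z₀ z₁ A q δ : ℝ} (hδ : 2 * δ ≤ q) : ∃ t : ℕ, t ≤ 2 ∧
    ¬ (A + 2 * t * q - δ < z₀ ∧ z₀ < A + (2 * t + 1) * q + δ) ∧
    ¬ (A + 2 * t * q - δ < z₁ ∧ z₁ < A + (2 * t + 1) * q + δ) := by
  by_contra hcon
  push Not at hcon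
  have h0 := hcon 0 (by norm_num)
  have h1 := hcon 1 (by norm_num)
  have h2 := hcon 2 (by norm_num)
  push_cast at h0 h1 h2
  by_cases a0 : A + 2 * 0 * q - δ < z₀ ∧ z₀ < A + (2 * 0 + 1) * q + δ
  · have b1 : ¬ (A + 2 * 1 * q - δ < z₀ ∧ z₀ < A + (2 * 1 + 1) * q + δ) := by
      rintro ⟨c1, c2⟩
      linarith [a0.1, a0.2]
    have b2 : ¬ (A + 2 * 2 * q - δ < z₀ ∧ z₀ < A + (2 * 2 + 1) * q + δ) := by
      rintro ⟨c1, c2⟩
      linarith [a0.1, a0.2]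
    obtain ⟨d1, d2⟩ := h1 (fun x => by by_contra hc; push Not at hc; exact b1 ⟨x, hc⟩)
    obtain ⟨e1, e2⟩ := h2 (fun x => by by_contra hc; push Not at hc; exact b2 ⟨x, hc⟩)
    linarith
  · obtain ⟨d1, d2⟩ := h0 (fun x => by by_contra hc; push Not at hc; exact a0 ⟨x, hc⟩)
    by_cases a1 : A + 2 * 1 * q - δ < z₀ ∧ z₀ < A + (2 * 1 + 1) * q + δ
    · have b2 : ¬ (A + 2 * 2 * q - δ < z₀ ∧ z₀ < A + (2 * 2 + 1) * q + δ) := by
        rintro ⟨c1, c2⟩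
        linarith [a1.1, a1.2]
      obtain ⟨e1, e2⟩ := h2 (fun x => by by_contra hc; push Not at hc; exact b2 ⟨x, hc⟩)
      linarith
    · obtain ⟨e1, e2⟩ := h1 (fun x => by by_contra hc; push Not at hc; exact a1 ⟨x, hc⟩)
      linarith

open Classical in
/-- the `n` in `(A, B]` for which `|f₀ n|` is prime, `|f₁ n|` has at most two prime factors, all of them
`≥ B ^ (1 / 9)`, and all `|f n|`, `f ∈ G`, have at most `r` prime factors, all of them `≥ B ^ ε` -/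
noncomputable def SysA (f₀ f₁ : ℤ × ℤ) (G : Finset (ℤ × ℤ)) (A B r : ℕ) (ε : ℝ) : Finset ℕ :=
  (Ioc A B).filter (fun n => (val f₀ n).natAbs.Prime ∧ (val f₁ n).natAbs.primeFactorsList.length ≤ 2 ∧
    (∀ p : ℕ, p.Prime → (p : ℤ) ∣ val f₁ n → (B : ℝ) ^ (1 / 9 : ℝ) ≤ p) ∧
    ∀ f ∈ G, (val f n).natAbs.primeFactorsList.length ≤ r ∧
      ∀ p : ℕ, p.Prime → (p : ℤ) ∣ val f n → (B : ℝ) ^ ε ≤ p)

theorem sgn_dvd {s : ℤ} (hs : s = 1 ∨ s = -1) (p x : ℤ) : p ∣ s * x ↔ p ∣ x := by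
  rcases hs with rfl | rfl
  · rw [one_mul]
  · rw [neg_one_mul, dvd_neg]

theorem sgn_abs {s : ℤ} (hs : s = 1 ∨ s = -1) (x : ℤ) : |s * x| = |x| ∧ (s * x).natAbs = x.natAbs := by
  rcases hs with rfl | rfl
  · simp
  · simp

theorem rts_image {G : Finset (ℤ × ℤ)} (s : ℤ × ℤ → ℤ) (hs : ∀ f, s f = 1 ∨ s f = -1) (p : ℕ) :
    rts (G.image (fun f => flip (s f) f)) p = rts G p := by
  unfold rts
  apply filter_congr
  intro m _
  constructor
  · rintro ⟨g, hg, hd⟩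
    rw [mem_image] at hg
    obtain ⟨f, hf, rfl⟩ := hg
    rw [val_flip, sgn_dvd (hs f)] at hd
    exact ⟨f, hf, hd⟩
  · rintro ⟨f, hf, hd⟩
    refine ⟨flip (s f) f, mem_image_of_mem _ hf, ?_⟩
    rw [val_flip, sgn_dvd (hs f)]
    exact hd

/-- powers of numbers of the same order -/
theorem pw_low {θ : ℝ} (hθ : 0 < θ) (α β : ℝ) (hα : 0 < α) (hαβ : α < β) : ∃ B₀ : ℕ, ∀ B : ℕ, B₀ ≤ B → ∀ x : ℝ,
    θ * B ≤ x → (B : ℝ) ^ α ≤ x ^ β := by
  have ev : ∀ᶠ B : ℕ in Filter.atTop, (1 / θ) ^ β ≤ (B : ℝ) ^ (β - α) :=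
    (Filter.Tendsto.comp (tendsto_rpow_atTop (by linarith)) tendsto_natCast_atTop_atTop).eventually_ge_atTop _
  obtain ⟨B₀, hB₀⟩ := Filter.eventually_atTop.1 ev
  refine ⟨B₀ + 1, fun B hB x hx => ?_⟩
  have h1 := hB₀ B (by omega)
  have hB0 : (0 : ℝ) < B := by exact_mod_cast (by omega : 0 < B)
  have h2 : (B : ℝ) ^ α = (B : ℝ) ^ β / (B : ℝ) ^ (β - α) := by
    rw [← Real.rpow_sub hB0]
    congr 1
    ring
  rw [h2, div_le_iff₀ (by positivity)]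
  calc (B : ℝ) ^ β = (θ * B) ^ β * (1 / θ) ^ β := by
        rw [← Real.mul_rpow (by positivity) (by positivity)]
        congr 1
        field_simp
    _ ≤ x ^ β * (B : ℝ) ^ (β - α) := by
        apply mul_le_mul _ h1 (by positivity) (by
          apply Real.rpow_nonneg
          exact le_trans (by positivity) hx)
        exact Real.rpow_le_rpow (by positivity) hx (by linarith)

open Classical in
/-- **Chen's theorem for systems of linear forms**, with absolute values. -/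
theorem chen_abs (k K : ℕ) (hk : 2 ≤ k) (hK1 : 1 ≤ K) (θ : ℝ) (hθ : 0 < θ) :
    ∃ ε c : ℝ, 0 < ε ∧ 0 < c ∧ ∃ r B₀ : ℕ, ∀ B : ℕ, B₀ ≤ B → ∀ A : ℕ, (A : ℝ) + θ * B ≤ B →
      ∀ G : Finset (ℤ × ℤ), G.card ≤ k → ∀ f₀ ∈ G, ∀ f₁ ∈ G,
      (∀ f ∈ G, f.1 ≠ 0 ∧ |f.1| ≤ K ∧ |f.2| ≤ (B : ℤ) ^ K) → |f₀.2| ≤ K * B → |f₁.2| ≤ K * B →
      f₀.1 * f₁.2 - f₁.1 * f₀.2 ≠ 0 → Adm G →
      c * B / Real.log B ^ k ≤ ((SysA f₀ f₁ G A B r ε).card : ℝ) ∧
      c * B * SS G B ≤ ((SysA f₀ f₁ G A B r ε).card : ℝ) := by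
  obtain ⟨θ₁, hθ₁0, hθ₁θ, hθ₁1⟩ : ∃ θ₁ : ℝ, 0 < θ₁ ∧ θ₁ ≤ θ ∧ θ₁ ≤ 1 :=
    ⟨min θ 1, lt_min hθ one_pos, min_le_left _ _, min_le_right _ _⟩
  set K' : ℕ := 2 * K + K * ⌈7 / θ₁⌉₊ with hK'
  have hKK' : K ≤ K' := by
    rw [hK']
    have : 0 ≤ K * ⌈7 / θ₁⌉₊ := Nat.zero_le _
    omega
  obtain ⟨ε, c, hε0, hε1, hc, r, B₀, hB₀⟩ := chen_sys k K' hk (by omega) (θ₁ / 40) (by positivity) (by linarith)
  have hθ7 : 0 < θ₁ / 7 := by positivity
  obtain ⟨B₁, hB₁⟩ := pw_low hθ7 (1 / 9) (1 / 8) (by norm_num) (by norm_num)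
  obtain ⟨B₂, hB₂⟩ := pw_low hθ7 (ε / 2) ε (by positivity) (by linarith)
  refine ⟨ε / 2, c * (θ₁ / 7), by positivity, by positivity, r,
    B₁ + B₂ + ⌈(42 + B₀) * (7 / θ₁) ^ 2⌉₊ + 16, ?_⟩
  intro B hB A hAB G hG f₀ h₀ f₁ h₁ hco hb₀ hb₁ hD hAdm
  have hBr : (42 + B₀) * (7 / θ₁) ^ 2 ≤ B := by
    have h1 : (⌈(42 + B₀) * (7 / θ₁) ^ 2⌉₊ : ℝ) ≤ B := by
      exact_mod_cast (by omega : ⌈(42 + (B₀ : ℝ)) * (7 / θ₁) ^ 2⌉₊ ≤ B)
    exact (Nat.le_ceil _).trans h1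
  have h7 : (7 : ℝ) ≤ 7 / θ₁ := by
    rw [le_div_iff₀ hθ₁0]
    linarith
  have hB₀r : (0 : ℝ) ≤ B₀ := Nat.cast_nonneg _
  have hB0 : (0 : ℝ) < B := lt_of_lt_of_le (by positivity) hBr
  -- the length of the pieces
  set q : ℕ := ⌊θ₁ * B / 6⌋₊ with hq
  have hq1 : (q : ℝ) ≤ θ₁ * B / 6 := Nat.floor_le (by positivity)
  have hθB : (42 + B₀) * (7 / θ₁) * 7 ≤ θ₁ * B := by
    have h1 := mul_le_mul_of_nonneg_left hBr hθ₁0.le
    have e : θ₁ * ((42 + B₀) * (7 / θ₁) ^ 2) = (42 + B₀) * (7 / θ₁) * 7 := by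
      field_simp
    linarith
  have hbig : (42 + B₀ : ℝ) * 7 * 7 ≤ θ₁ * B := by
    refine le_trans ?_ hθB
    nlinarith
  have hq2 : θ₁ / 7 * B ≤ q := by
    have h1 := Nat.lt_floor_add_one (θ₁ * B / 6)
    rw [← hq] at h1
    linarith
  have hq7 : (7 / θ₁ : ℝ) ≤ q := by
    refine le_trans ?_ hq2
    nlinarith
  have hqpos : (0 : ℝ) < q := by linarith
  set δ : ℝ := q / 4 with hδ
  have hδ0 : 0 < δ := by positivity
  obtain ⟨t, ht, hz₀, hz₁⟩ := piece (z₀ := -(f₀.2 : ℝ) / f₀.1) (z₁ := -(f₁.2 : ℝ) / f₁.1) (A := (A : ℝ))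
    (q := (q : ℝ)) (δ := δ) (by rw [hδ]; linarith)
  have hval : ∀ f : ℤ × ℤ, f.1 ≠ 0 → ∀ n : ℤ, (val f n : ℝ) = f.1 * (n - -(f.2 : ℝ) / f.1) := by
    intro f hf n
    have : (f.1 : ℝ) ≠ 0 := by exact_mod_cast hf
    unfold val
    push_cast
    field_simp
    ring
  have habs1 : ∀ f : ℤ × ℤ, f.1 ≠ 0 → (1 : ℝ) ≤ |(f.1 : ℝ)| := by
    intro f hf
    have : (1 : ℤ) ≤ |f.1| := Int.one_le_abs hf
    exact_mod_cast this
  obtain ⟨s₀, hs₀, hs₀'⟩ := away (habs1 f₀ (hco f₀ h₀).1) hδ0 hz₀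
  obtain ⟨s₁, hs₁, hs₁'⟩ := away (habs1 f₁ (hco f₁ h₁).1) hδ0 hz₁
  set A' : ℕ := A + 2 * t * q with hA'
  set B' : ℕ := A + (2 * t + 1) * q with hB'
  have hA'r : (A' : ℝ) = A + 2 * t * q := by rw [hA']; push_cast; ring
  have hB'r : (B' : ℝ) = A + (2 * t + 1) * q := by rw [hB']; push_cast; ring
  have htr : (t : ℝ) ≤ 2 := by exact_mod_cast ht
  have hqB' : (q : ℝ) ≤ B' := by
    rw [hB'r]
    have : (0 : ℝ) ≤ A := Nat.cast_nonneg _
    have h2 : (0 : ℝ) ≤ t * q := by positivity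
    linarith
  have hB'B : (B' : ℝ) ≤ B := by
    rw [hB'r]
    have h1 : (2 * (t : ℝ) + 1) * q ≤ 5 * q := mul_le_mul_of_nonneg_right (by linarith) hqpos.le
    have h2 : θ₁ * B ≤ θ * B := mul_le_mul_of_nonneg_right hθ₁θ hB0.le
    linarith
  have hB'B' : B' ≤ B := by exact_mod_cast hB'B
  have hBB' : θ₁ / 7 * B ≤ B' := hq2.trans hqB'
  have hBB'2 : (B : ℝ) ≤ 7 / θ₁ * B' := by
    have h1 := mul_le_mul_of_nonneg_left hBB' (by positivity : 0 ≤ 7 / θ₁)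
    have e : 7 / θ₁ * (θ₁ / 7 * B) = B := by field_simp
    linarith
  have hB'1 : 1 ≤ B' := by
    have : (1 : ℝ) ≤ B' := by linarith
    exact_mod_cast this
  -- the signs
  set s : ℤ × ℤ → ℤ := fun f => if f = f₀ then s₀ else if f = f₁ then s₁ else 1 with hs
  have hsgn : ∀ f, s f = 1 ∨ s f = -1 := by
    intro f
    rw [hs]
    dsimp only
    split_ifs
    · exact hs₀
    · exact hs₁
    · exact Or.inl rfl
  have hne : f₁ ≠ f₀ := by
    rintro rfl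
    apply hD
    ring
  have hsf₀ : s f₀ = s₀ := by rw [hs]; simp
  have hsf₁ : s f₁ = s₁ := by rw [hs]; simp [hne]
  set G' : Finset (ℤ × ℤ) := G.image (fun f => flip (s f) f) with hG'
  have hmem : ∀ f ∈ G, flip (s f) f ∈ G' := fun f hf => mem_image_of_mem _ hf
  have hdet : (flip (s f₀) f₀).1 * (flip (s f₁) f₁).2 - (flip (s f₁) f₁).1 * (flip (s f₀) f₀).2 ≠ 0 := by
    show s f₀ * f₀.1 * (s f₁ * f₁.2) - s f₁ * f₁.1 * (s f₀ * f₀.2) ≠ 0
    have e : s f₀ * f₀.1 * (s f₁ * f₁.2) - s f₁ * f₁.1 * (s f₀ * f₀.2) =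
      s f₀ * s f₁ * (f₀.1 * f₁.2 - f₁.1 * f₀.2) := by ring
    rw [e]
    apply mul_ne_zero _ hD
    rcases hsgn f₀ with h | h <;> rcases hsgn f₁ with h' | h' <;> rw [h, h'] <;> norm_num
  have hKB : ∀ b : ℤ, |b| ≤ K * B → |b| ≤ K' * B' := by
    intro b hb
    refine hb.trans ?_
    have h1 : ((K : ℝ) * B) ≤ (K' : ℝ) * B' := by
      have h2 : (7 / θ₁ : ℝ) ≤ ⌈7 / θ₁⌉₊ := Nat.le_ceil _
      have h3 : (B : ℝ) ≤ ⌈7 / θ₁⌉₊ * B' :=
        hBB'2.trans (mul_le_mul_of_nonneg_right h2 (Nat.cast_nonneg _))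
      calc (K : ℝ) * B ≤ K * (⌈7 / θ₁⌉₊ * B') := mul_le_mul_of_nonneg_left h3 (Nat.cast_nonneg _)
        _ = (K * ⌈7 / θ₁⌉₊ : ℝ) * B' := by ring
        _ ≤ (K' : ℝ) * B' := by
            apply mul_le_mul_of_nonneg_right _ (Nat.cast_nonneg _)
            rw [hK']
            push_cast
            have : (0 : ℝ) ≤ K := Nat.cast_nonneg _
            linarith
    exact_mod_cast h1
  have hposv : ∀ (f : ℤ × ℤ) (σ : ℤ), f.1 ≠ 0 → (∀ n : ℝ, (A : ℝ) + 2 * t * q < n → n ≤ A + (2 * t + 1) * q →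
      δ ≤ σ * (f.1 * (n - -(f.2 : ℝ) / f.1))) → ∀ n : ℤ, A' < n → n ≤ B' →
      θ₁ / 40 * B' ≤ (val (flip σ f) n : ℝ) := by
    intro f σ hf hσ n hn1 hn2
    have h1 : (A' : ℝ) < n := by exact_mod_cast hn1
    have h2 : (n : ℝ) ≤ B' := by exact_mod_cast hn2
    rw [hA'r] at h1
    rw [hB'r] at h2
    have h3 := hσ n h1 h2
    rw [val_flip]
    push_cast
    rw [hval f hf]
    refine le_trans ?_ h3
    rw [hδ]
    have h4 : θ₁ / 40 * B' ≤ θ₁ / 40 * B := mul_le_mul_of_nonneg_left hB'B (by positivity)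
    linarith
  obtain ⟨hm1, hm2⟩ := hB₀ B' (by
      have h1 : (B₀ : ℝ) ≤ B' := by linarith
      exact_mod_cast h1) A'
    (by
      rw [hA'r]
      have h4 : θ₁ / 40 * B' ≤ θ₁ / 40 * B := mul_le_mul_of_nonneg_left hB'B (by positivity)
      rw [hB'r] at h4 ⊢
      linarith)
    G' (card_image_le.trans hG) _ (hmem f₀ h₀) _ (hmem f₁ h₁)
    (fun he => hdet (by rw [he]; ring))
    (by
      intro g hg
      rw [hG', mem_image] at hg
      obtain ⟨f, hf, rfl⟩ := hg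
      obtain ⟨c1, c2, c3⟩ := hco f hf
      refine ⟨?_, ?_, ?_⟩
      · show s f * f.1 ≠ 0
        apply mul_ne_zero _ c1
        rcases hsgn f with h | h <;> rw [h] <;> norm_num
      · show |s f * f.1| ≤ K'
        rw [(sgn_abs (hsgn f) _).1]
        exact c2.trans (by exact_mod_cast hKK')
      · show |s f * f.2| ≤ (B' : ℤ) ^ K'
        rw [(sgn_abs (hsgn f) _).1]
        refine c3.trans ?_
        have h1 : (B : ℝ) ≤ (B' : ℝ) ^ 2 := by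
          refine hBB'2.trans ?_
          rw [sq]
          exact mul_le_mul_of_nonneg_right (hq7.trans hqB') (Nat.cast_nonneg _)
        have h2 : B ≤ B' ^ 2 := by exact_mod_cast h1
        have h3 : B ^ K ≤ B' ^ K' := by
          calc B ^ K ≤ (B' ^ 2) ^ K := Nat.pow_le_pow_left h2 K
            _ = B' ^ (2 * K) := by rw [← pow_mul]
            _ ≤ B' ^ K' := Nat.pow_le_pow_right hB'1 (by rw [hK']; exact Nat.le_add_right _ _)
        exact_mod_cast h3)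
    (by
      show |s f₀ * f₀.2| ≤ K' * B'
      rw [(sgn_abs (hsgn f₀) _).1]
      exact hKB _ hb₀)
    (by
      show |s f₁ * f₁.2| ≤ K' * B'
      rw [(sgn_abs (hsgn f₁) _).1]
      exact hKB _ hb₁)
    hdet
    (by
      intro n hn1 hn2
      rw [hsf₀, hsf₁]
      exact ⟨hposv f₀ s₀ (hco f₀ h₀).1 hs₀' n hn1 hn2, hposv f₁ s₁ (hco f₁ h₁).1 hs₁' n hn1 hn2⟩)
    (by
      intro p hp
      obtain ⟨n, hn⟩ := hAdm p hp
      refine ⟨n, fun g hg => ?_⟩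
      rw [hG', mem_image] at hg
      obtain ⟨f, hf, rfl⟩ := hg
      rw [val_flip, sgn_dvd (hsgn f)]
      exact hn f hf)
  have hSS : SS G' B' = SS G B' := by
    unfold SS
    apply prod_congr rfl
    intro p _
    rw [hG', rts_image s hsgn]
  rw [hSS] at hm2
  have hpow1 := hB₁ B (by omega) B' hBB'
  have hpow2 := hB₂ B (by omega) B' hBB'
  have hsub : Sys (flip (s f₀) f₀) (flip (s f₁) f₁) G' A' B' r ε ⊆ SysA f₀ f₁ G A B r (ε / 2) := by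
    intro n hn
    unfold Sys at hn
    unfold SysA
    rw [mem_filter, mem_Ioc] at hn ⊢
    obtain ⟨⟨a1, a2⟩, a3, a4, a5, a6⟩ := hn
    have v1 := hposv f₀ s₀ (hco f₀ h₀).1 hs₀' n (by exact_mod_cast a1) (by exact_mod_cast a2)
    have v2 := hposv f₁ s₁ (hco f₁ h₁).1 hs₁' n (by exact_mod_cast a1) (by exact_mod_cast a2)
    have htn : ∀ x : ℤ, θ₁ / 40 * B' ≤ (x : ℝ) → x.toNat = x.natAbs := by
      intro x hx
      have h1 : (0 : ℝ) ≤ x := le_trans (by positivity) hx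
      have h2 : 0 ≤ x := by exact_mod_cast h1
      omega
    rw [hsf₀, htn _ v1, val_flip, (sgn_abs hs₀ _).2] at a3
    rw [hsf₁, htn _ v2, val_flip, (sgn_abs hs₁ _).2] at a4
    refine ⟨⟨?_, a2.trans hB'B'⟩, a3, a4, ?_, ?_⟩
    · have : A ≤ A' := Nat.le_add_right _ _
      omega
    · intro p hp hd
      refine hpow1.trans (a5 p hp ?_)
      rw [val_flip, sgn_dvd (hsgn f₁)]
      exact hd
    · intro f hf
      obtain ⟨g1, g2⟩ := a6 _ (hmem f hf)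
      rw [val_flip, (sgn_abs (hsgn f) _).2] at g1
      refine ⟨g1, fun p hp hd => hpow2.trans (g2 p hp ?_)⟩
      rw [val_flip, sgn_dvd (hsgn f)]
      exact hd
  have hle : ((Sys (flip (s f₀) f₀) (flip (s f₁) f₁) G' A' B' r ε).card : ℝ) ≤
      ((SysA f₀ f₁ G A B r (ε / 2)).card : ℝ) := by
    exact_mod_cast card_le_card hsub
  have hB'4 : (7 : ℝ) ≤ B' := h7.trans (hq7.trans hqB')
  have hlB' : 0 < Real.log B' := Real.log_pos (by linarith)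
  have hll : Real.log B' ≤ Real.log B := Real.log_le_log (by linarith) hB'B
  constructor
  · refine le_trans ?_ (hm1.trans hle)
    calc c * (θ₁ / 7) * B / Real.log B ^ k = c * (θ₁ / 7 * B) / Real.log B ^ k := by ring
      _ ≤ c * B' / Real.log B' ^ k := by
          apply div_le_div₀ (by positivity) (mul_le_mul_of_nonneg_left hBB' hc.le) (by positivity)
          exact pow_le_pow_left₀ hlB'.le hll k
  · refine le_trans ?_ (hm2.trans hle)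
    calc c * (θ₁ / 7) * B * SS G B = c * (θ₁ / 7 * B) * SS G B := by ring
      _ ≤ c * B' * SS G B' :=
          mul_le_mul (mul_le_mul_of_nonneg_left hBB' hc.le) (SS_anti G hB'B') (SS_nonneg G B) (by positivity)

end Pool.Agent.H76.CL
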