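import Pool.Agent.H76.CL.Parts
import Pool.Graph.R_seed8.Y843.CH.Cls

/-!
# Chen's theorem for linear forms: the local data

A linear form `a n + b` is the pair `(a, b)`.
-/

set_option autoImplicit false

namespace Pool.Agent.H76.CL

open Finset Filter Pool.Agent.W23.DC Pool.Agent.Y660.RP Pool.Agent.Y843.CH

/-- the value of the linear form `f` at `n` -/
def val (f : ℤ × ℤ) (n : ℤ) : ℤ := f.1 * n + f.2

theorem val_sub (f : ℤ × ℤ) (m n : ℤ) : val f m - val f n = f.1 * (m - n) := by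
  unfold val
  ring

theorem dvd_val_iff {f : ℤ × ℤ} {m n q : ℤ} (h : q ∣ m - n) : q ∣ val f m ↔ q ∣ val f n := by
  have h1 : q ∣ val f m - val f n := by
    rw [val_sub]
    exact h.mul_left _
  constructor
  · intro h2
    have := dvd_sub h2 h1
    rwa [sub_sub_cancel] at this
  · intro h2
    have := dvd_add h1 h2
    rwa [sub_add_cancel] at this

open Classical in
/-- the residue classes of `f n` modulo `p`, for the `n` with `p ∣ g n` for some `g ∈ G`, except the class `0` -/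
noncomputable def clF (f : ℤ × ℤ) (G : Finset (ℤ × ℤ)) (p : ℕ) : Finset ℕ :=
  (range p).filter (fun c => c ≠ 0 ∧ ∃ n : ℤ, (p : ℤ) ∣ val f n - c ∧ ∃ g ∈ G, (p : ℤ) ∣ val g n)

theorem mem_clF {f : ℤ × ℤ} {G : Finset (ℤ × ℤ)} {p w : ℕ} {n : ℤ} (hp : p.Prime) (hf : ¬ (p : ℤ) ∣ f.1)
    (hw : (w : ℤ) = val f n) : w % p ∈ clF f G p ↔ ¬ p ∣ w ∧ ∃ g ∈ G, (p : ℤ) ∣ val g n := by
  classical
  have hpp : Prime (p : ℤ) := Nat.prime_iff_prime_int.1 hp
  have hwm : (p : ℤ) ∣ (w : ℤ) - ((w % p : ℕ) : ℤ) := by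
    have h1 : (w : ℤ) - ((w % p : ℕ) : ℤ) = (p : ℤ) * ((w / p : ℕ) : ℤ) := by
      have := Nat.mod_add_div w p
      have h2 : ((w % p : ℕ) : ℤ) + (p : ℤ) * ((w / p : ℕ) : ℤ) = (w : ℤ) := by exact_mod_cast this
      linarith
    rw [h1]
    exact dvd_mul_right _ _
  unfold clF
  rw [mem_filter, mem_range]
  constructor
  · rintro ⟨-, h1, n', h2, g, hg, h3⟩
    refine ⟨fun h => h1 (Nat.mod_eq_zero_of_dvd h), g, hg, ?_⟩
    have h4 : (p : ℤ) ∣ val f n' - val f n := by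
      rw [← hw]
      have := dvd_sub h2 hwm
      have e : val f n' - ((w % p : ℕ) : ℤ) - ((w : ℤ) - ((w % p : ℕ) : ℤ)) = val f n' - w := by ring
      rwa [e] at this
    rw [val_sub] at h4
    exact (dvd_val_iff ((hpp.dvd_or_dvd h4).resolve_left hf)).1 h3
  · rintro ⟨h1, g, hg, h2⟩
    refine ⟨Nat.mod_lt _ hp.pos, fun h => h1 (Nat.dvd_of_mod_eq_zero h), n, ?_, g, hg, h2⟩
    rw [← hw]
    exact hwm

theorem clF_lt {f : ℤ × ℤ} {G : Finset (ℤ × ℤ)} {p c : ℕ} (hc : c ∈ clF f G p) : c < p ∧ c ≠ 0 := by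
  classical
  unfold clF at hc
  rw [mem_filter, mem_range] at hc
  exact ⟨hc.1, hc.2.1⟩

/-- the roots of the forms modulo `p` -/
def rts (G : Finset (ℤ × ℤ)) (p : ℕ) : Finset ℕ :=
  (range p).filter (fun m => ∃ g ∈ G, (p : ℤ) ∣ val g m)

theorem exists_root {p : ℕ} (hp : p.Prime) {g : ℤ × ℤ} (hg : ¬ (p : ℤ) ∣ g.1) :
    ∃ m < p, (p : ℤ) ∣ val g m := by
  have hpp : Prime (p : ℤ) := Nat.prime_iff_prime_int.1 hp
  have hcop : IsCoprime (p : ℤ) g.1 := (hpp.coprime_iff_not_dvd).2 hg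
  obtain ⟨u, v, huv⟩ := hcop
  have hp0 : (0 : ℤ) < p := by exact_mod_cast hp.pos
  have h1 : 0 ≤ (-(g.2 * v)) % (p : ℤ) := Int.emod_nonneg _ hp0.ne'
  have h2 : (-(g.2 * v)) % (p : ℤ) < p := Int.emod_lt_of_pos _ hp0
  refine ⟨((-(g.2 * v)) % (p : ℤ)).toNat, by omega, ?_⟩
  rw [Int.toNat_of_nonneg h1]
  have h3 : (p : ℤ) ∣ (-(g.2 * v)) % (p : ℤ) - (-(g.2 * v)) := by
    have := Int.emod_add_mul_ediv (-(g.2 * v)) (p : ℤ)
    have e : (-(g.2 * v)) % (p : ℤ) - (-(g.2 * v)) = (p : ℤ) * (-((-(g.2 * v)) / (p : ℤ))) := by linarith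
    rw [e]
    exact dvd_mul_right _ _
  rw [dvd_val_iff h3]
  unfold val
  have e : g.1 * -(g.2 * v) + g.2 = (p : ℤ) * (u * g.2) := by linear_combination (-g.2) * huv
  rw [e]
  exact dvd_mul_right _ _

theorem root_unique {p : ℕ} (hp : p.Prime) {g : ℤ × ℤ} (hg : ¬ (p : ℤ) ∣ g.1) {m m' : ℕ} (hm : m < p)
    (hm' : m' < p) {c : ℤ} (h1 : (p : ℤ) ∣ val g m - c) (h2 : (p : ℤ) ∣ val g m' - c) : m = m' := by
  have hpp : Prime (p : ℤ) := Nat.prime_iff_prime_int.1 hp
  have h3 := dvd_sub h1 h2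
  have e : val g m - c - (val g m' - c) = val g m - val g m' := by ring
  rw [e, val_sub] at h3
  have h4 := (hpp.dvd_or_dvd h3).resolve_left hg
  obtain ⟨k, hk⟩ := h4
  have : k = 0 := by
    by_contra hk0
    rcases lt_or_gt_of_ne hk0 with h5 | h5
    · nlinarith
    · nlinarith
  subst this
  omega

theorem card_rts_le {G : Finset (ℤ × ℤ)} {p : ℕ} (hp : p.Prime) (hG : ∀ g ∈ G, ¬ (p : ℤ) ∣ g.1) :
    (rts G p).card ≤ G.card := by
  classical
  have key : ∀ g : ℤ × ℤ, ∃ m : ℕ, ¬ (p : ℤ) ∣ g.1 → m < p ∧ (p : ℤ) ∣ val g m := by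
    intro g
    by_cases h : (p : ℤ) ∣ g.1
    · exact ⟨0, fun h' => absurd h h'⟩
    · obtain ⟨m, h1, h2⟩ := exists_root hp h
      exact ⟨m, fun _ => ⟨h1, h2⟩⟩
  choose r hr using key
  refine (card_le_card (t := G.image r) ?_).trans card_image_le
  intro c hc
  unfold rts at hc
  rw [mem_filter, mem_range] at hc
  obtain ⟨h1, g, hg, h2⟩ := hc
  rw [mem_image]
  obtain ⟨h3, h4⟩ := hr g (hG g hg)
  exact ⟨g, hg, root_unique hp (hG g hg) h3 h1 (c := 0) (by simpa using h4) (by simpa using h2)⟩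

/-- the number of the classes -/
theorem card_clF {f : ℤ × ℤ} {G : Finset (ℤ × ℤ)} {p : ℕ} (hp : p.Prime) (hf : ¬ (p : ℤ) ∣ f.1) :
    (clF f G p).card + 1 = (rts (insert f G) p).card := by
  classical
  have hp0 : (0 : ℤ) < p := by exact_mod_cast hp.pos
  set φ : ℕ → ℕ := fun m => (val f m % (p : ℤ)).toNat with hφ
  have hφ1 : ∀ m : ℕ, ((φ m : ℕ) : ℤ) = val f m % (p : ℤ) := fun m =>
    Int.toNat_of_nonneg (Int.emod_nonneg _ hp0.ne')
  have hφ2 : ∀ m : ℕ, (p : ℤ) ∣ val f m - (φ m : ℕ) := by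
    intro m
    rw [hφ1]
    exact Int.dvd_self_sub_emod
  have hφ3 : ∀ m : ℕ, φ m < p := by
    intro m
    have := Int.emod_lt_of_pos (val f m) hp0
    rw [← hφ1] at this
    exact_mod_cast this
  have hinj : Set.InjOn φ (rts (insert f G) p) := by
    intro m hm m' hm' he
    rw [mem_coe, rts, mem_filter, mem_range] at hm hm'
    have h1 := hφ2 m
    have h2 := hφ2 m'
    rw [← he] at h2
    exact root_unique hp hf hm.1 hm'.1 h1 h2
  have himg : (rts (insert f G) p).image φ = insert 0 (clF f G p) := by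
    ext c
    rw [mem_image, mem_insert]
    constructor
    · rintro ⟨m, hm, rfl⟩
      rw [rts, mem_filter, mem_range] at hm
      obtain ⟨h1, g, hg, h2⟩ := hm
      by_cases h0 : φ m = 0
      · exact Or.inl h0
      · right
        unfold clF
        rw [mem_filter, mem_range]
        refine ⟨hφ3 m, h0, m, hφ2 m, ?_⟩
        rw [mem_insert] at hg
        rcases hg with rfl | hg
        · exfalso
          apply h0
          have h3 : val g m % (p : ℤ) = 0 := Int.emod_eq_zero_of_dvd h2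
          show (val g m % (p : ℤ)).toNat = 0
          rw [h3]
          rfl
        · exact ⟨g, hg, h2⟩
    · rintro (rfl | hc)
      · obtain ⟨m, h1, h2⟩ := exists_root hp hf
        refine ⟨m, ?_, ?_⟩
        · rw [rts, mem_filter, mem_range]
          exact ⟨h1, f, mem_insert_self _ _, h2⟩
        · have h3 : val f m % (p : ℤ) = 0 := Int.emod_eq_zero_of_dvd h2
          show (val f m % (p : ℤ)).toNat = 0
          rw [h3]
          rfl
      · unfold clF at hc
        rw [mem_filter, mem_range] at hc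
        obtain ⟨h1, h2, n, h3, g, hg, h4⟩ := hc
        have hn0 : 0 ≤ n % (p : ℤ) := Int.emod_nonneg _ hp0.ne'
        have hn1 : n % (p : ℤ) < p := Int.emod_lt_of_pos _ hp0
        have hn2 : (p : ℤ) ∣ (((n % (p : ℤ)).toNat : ℕ) : ℤ) - n := by
          rw [Int.toNat_of_nonneg hn0]
          have := Int.dvd_self_sub_emod (x := n) (m := (p : ℤ))
          have e : n % (p : ℤ) - n = -(n - n % (p : ℤ)) := by ring
          rw [e]
          exact this.neg_right
        refine ⟨(n % (p : ℤ)).toNat, ?_, ?_⟩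
        · rw [rts, mem_filter, mem_range]
          exact ⟨by omega, g, mem_insert_of_mem hg, (dvd_val_iff hn2).2 h4⟩
        · have h5 : (p : ℤ) ∣ val f (((n % (p : ℤ)).toNat : ℕ) : ℤ) - val f n := by
            rw [val_sub]
            exact hn2.mul_left _
          have h6 := hφ2 (n % (p : ℤ)).toNat
          have h7 := hφ3 (n % (p : ℤ)).toNat
          have h8 := dvd_sub (dvd_add h5 h3) h6
          have e : val f (((n % (p : ℤ)).toNat : ℕ) : ℤ) - val f n + (val f n - c) -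
            (val f (((n % (p : ℤ)).toNat : ℕ) : ℤ) - ((φ (n % (p : ℤ)).toNat : ℕ) : ℤ)) =
            ((φ (n % (p : ℤ)).toNat : ℕ) : ℤ) - c := by ring
          rw [e] at h8
          obtain ⟨k, hk⟩ := h8
          have : k = 0 := by
            by_contra hk0
            rcases lt_or_gt_of_ne hk0 with h5 | h5
            · nlinarith
            · nlinarith
          subst this
          omega
  have h0 : (0 : ℕ) ∉ clF f G p := fun h => (clF_lt h).2 rfl
  rw [← card_image_of_injOn hinj, himg, card_insert_of_notMem h0]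

theorem card_clF_le {f : ℤ × ℤ} {G : Finset (ℤ × ℤ)} {p : ℕ} (hp : p.Prime) (hf : ¬ (p : ℤ) ∣ f.1)
    (hG : ∀ g ∈ G, ¬ (p : ℤ) ∣ g.1) : (clF f G p).card ≤ G.card := by
  classical
  have h1 := card_clF (G := G) hp hf
  have h2 : (rts (insert f G) p).card ≤ (insert f G).card := by
    apply card_rts_le hp
    intro g hg
    rw [mem_insert] at hg
    rcases hg with rfl | hg
    · exact hf
    · exact hG g hg
  have h3 := card_insert_le f G
  omega

/-- the classes for one form -/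
theorem card_clF_single {f g : ℤ × ℤ} {p : ℕ} (hp : p.Prime) (hf : ¬ (p : ℤ) ∣ f.1) (hg : ¬ (p : ℤ) ∣ g.1) :
    (clF f {g} p).card = if p ∣ (f.1 * g.2 - g.1 * f.2).natAbs then 0 else 1 := by
  classical
  have hpp : Prime (p : ℤ) := Nat.prime_iff_prime_int.1 hp
  have hD : ∀ n : ℤ, f.1 * val g n - g.1 * val f n = f.1 * g.2 - g.1 * f.2 := by
    intro n
    unfold val
    ring
  have hd : p ∣ (f.1 * g.2 - g.1 * f.2).natAbs ↔ (p : ℤ) ∣ f.1 * g.2 - g.1 * f.2 := by
    rw [← Int.natCast_dvd]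
  split_ifs with h
  · rw [hd] at h
    rw [card_eq_zero, Finset.eq_empty_iff_forall_notMem]
    intro c hc
    have hc' := clF_lt hc
    unfold clF at hc
    rw [mem_filter, mem_range] at hc
    obtain ⟨h1, h2, n, h3, g', hg', h4⟩ := hc
    rw [mem_singleton] at hg'
    subst hg'
    rw [← hD n] at h
    have h5 := dvd_sub (h4.mul_left f.1) h
    rw [sub_sub_cancel] at h5
    have h6 := (hpp.dvd_or_dvd h5).resolve_left hg
    have h7 := dvd_sub h6 h3
    rw [sub_sub_cancel] at h7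
    have h8 : p ∣ c := by exact_mod_cast h7
    have := Nat.le_of_dvd (Nat.pos_of_ne_zero h2) h8
    omega
  · rw [hd] at h
    apply le_antisymm
    · have := card_clF_le (G := {g}) hp hf (by
        intro g' hg'
        rw [mem_singleton] at hg'
        rw [hg']
        exact hg)
      rwa [card_singleton] at this
    · rw [Nat.one_le_iff_ne_zero, ← Nat.pos_iff_ne_zero, card_pos]
      obtain ⟨m, hm1, hm2⟩ := exists_root hp hg
      have hp0 : (0 : ℤ) < p := by exact_mod_cast hp.pos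
      have h0 : 0 ≤ val f m % (p : ℤ) := Int.emod_nonneg _ hp0.ne'
      refine ⟨(val f m % (p : ℤ)).toNat, ?_⟩
      unfold clF
      rw [mem_filter, mem_range]
      refine ⟨?_, ?_, m, ?_, g, mem_singleton_self _, hm2⟩
      · have := Int.emod_lt_of_pos (val f m) hp0
        omega
      · intro h1
        apply h
        rw [← hD m]
        apply dvd_sub (hm2.mul_left _)
        apply Dvd.dvd.mul_left
        apply Int.dvd_of_emod_eq_zero
        omega
      · rw [Int.toNat_of_nonneg h0]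
        exact Int.dvd_self_sub_emod

/-- the forbidden classes -/
noncomputable def cl (f : ℤ × ℤ) (G : Finset (ℤ × ℤ)) (g : ℤ × ℤ) (N : ℕ) (ε : ℝ) (p : ℕ) : Finset ℕ :=
  if (p : ℝ) < (N : ℝ) ^ ε then clF f G p else clF f {g} p

/-- the density of the forbidden classes -/
noncomputable def gg (f : ℤ × ℤ) (G : Finset (ℤ × ℤ)) (g : ℤ × ℤ) (N : ℕ) (ε : ℝ) (p : ℕ) : ℝ :=
  ((cl f G g N ε p).card : ℝ) / ((p : ℝ) - 1)

/-- the product of the primes `z < p ≤ N` for which the class of `m` is forbidden -/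
noncomputable def vw (cl : ℕ → Finset ℕ) (N z m : ℕ) : ℕ :=
  ∏ p ∈ (Ioc z N).filter (fun p => p.Prime ∧ m % p ∈ cl p), p

theorem dvd_vw {cl : ℕ → Finset ℕ} {N z m p : ℕ} (hp : p.Prime) (hz : z < p)
    (hN : p ≤ N) : p ∣ vw cl N z m ↔ m % p ∈ cl p := by
  unfold vw
  constructor
  · intro h
    rw [Prime.dvd_finsetProd_iff hp.prime] at h
    obtain ⟨q, hq, hpq⟩ := h
    rw [mem_filter, mem_Ioc] at hq
    have : p = q := (Nat.prime_dvd_prime_iff_eq hp hq.2.1).1 hpq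
    rw [this]
    exact hq.2.2
  · intro h
    apply dvd_prod_of_mem (fun p => p)
    rw [mem_filter, mem_Ioc]
    exact ⟨⟨hz, hN⟩, hp, h⟩

theorem sqf_dvd_vw {cl : ℕ → Finset ℕ} {N z m q : ℕ} (hq : Squarefree q)
    (hz : ∀ p ∈ q.primeFactors, z < p) (hN : q ≤ N) :
    q ∣ vw cl N z m ↔ ∀ p ∈ q.primeFactors, m % p ∈ cl p := by
  have hq0 : q ≠ 0 := hq.ne_zero
  constructor
  · intro h p hp
    have hpp := Nat.prime_of_mem_primeFactors hp
    have hpq := Nat.dvd_of_mem_primeFactors hp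
    exact (dvd_vw hpp (hz p hp) ((Nat.le_of_dvd (Nat.pos_of_ne_zero hq0) hpq).trans hN)).1
      (hpq.trans h)
  · intro h
    rw [← Nat.prod_primeFactors_of_squarefree hq]
    refine (Pool.Agent.Y660.RP.prod_dvd (fun p hp => Nat.prime_of_mem_primeFactors hp) _).2 ?_
    intro p hp
    have hpp := Nat.prime_of_mem_primeFactors hp
    have hpq := Nat.dvd_of_mem_primeFactors hp
    exact (dvd_vw hpp (hz p hp) ((Nat.le_of_dvd (Nat.pos_of_ne_zero hq0) hpq).trans hN)).2 (h p hp)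

/-- the coefficients of the forms are not divisible by the primes `> z` -/
def Big (G : Finset (ℤ × ℤ)) (z : ℕ) : Prop := ∀ p : ℕ, p.Prime → z < p → ∀ g ∈ G, ¬ (p : ℤ) ∣ g.1

theorem card_cl_le {f g : ℤ × ℤ} {G : Finset (ℤ × ℤ)} (hg : g ∈ G) {z : ℕ} (hB : Big (insert f G) z) {N : ℕ} {ε : ℝ}
    {p : ℕ} (hp : p.Prime) (hz : z < p) : (cl f G g N ε p).card ≤ G.card := by
  classical
  have h1 := hB p hp hz f (mem_insert_self _ _)
  have h2 : ∀ g ∈ G, ¬ (p : ℤ) ∣ g.1 := fun g hg => hB p hp hz g (mem_insert_of_mem hg)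
  unfold cl
  split_ifs
  · exact card_clF_le hp h1 h2
  · refine (card_clF_le (G := {g}) hp h1 ?_).trans ?_
    · intro g' hg'
      rw [mem_singleton] at hg'
      rw [hg']
      exact h2 g hg
    · rw [card_singleton]
      exact card_pos.2 ⟨g, hg⟩

theorem cl_ne_zero {f g : ℤ × ℤ} {G : Finset (ℤ × ℤ)} {N : ℕ} {ε : ℝ} {p : ℕ} :
    ∀ c ∈ cl f G g N ε p, c < p ∧ c ≠ 0 := by
  intro c hc
  unfold cl at hc
  split_ifs at hc
  · exact clF_lt hc
  · exact clF_lt hc

theorem gg_Dg {f g : ℤ × ℤ} {G : Finset (ℤ × ℤ)} (hg : g ∈ G) {z κ : ℕ} (hB : Big (insert f G) z)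
    (hκ : G.card ≤ κ) {N : ℕ} {ε : ℝ} (hzN : (z : ℝ) < (N : ℝ) ^ ε) :
    Dg κ z ((N : ℝ) ^ ε) (f.1 * g.2 - g.1 * f.2).natAbs (gg f G g N ε) := by
  refine ⟨fun p hp hz => ?_, fun p hp hw => ?_⟩
  · have h2 : (2 : ℝ) ≤ p := by exact_mod_cast hp.two_le
    have h1 : (0 : ℝ) < (p : ℝ) - 1 := by linarith
    unfold gg
    refine ⟨by positivity, ?_⟩
    apply div_le_div_of_nonneg_right _ h1.le
    exact_mod_cast (card_cl_le hg hB hp hz).trans hκ
  · have hz : z < p := by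
      have : (z : ℝ) < p := by linarith
      exact_mod_cast this
    unfold gg cl
    rw [if_neg (not_lt.2 hw), card_clF_single hp (hB p hp hz f (mem_insert_self _ _))
      (hB p hp hz g (mem_insert_of_mem hg))]
    split_ifs
    · simp
    · simp

/-- the densities of the two problems agree -/
theorem gg_symm {f₀ f₁ : ℤ × ℤ} {F : Finset (ℤ × ℤ)} {z : ℕ} (hB : Big (insert f₀ (insert f₁ F)) z) {N : ℕ}
    {ε : ℝ} {p : ℕ} (hp : p.Prime) (hz : z < p) (hw : (p : ℝ) < (N : ℝ) ^ ε) :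
    gg f₁ (insert f₀ F) f₀ N ε p = gg f₀ (insert f₁ F) f₁ N ε p := by
  unfold gg cl
  rw [if_pos hw, if_pos hw]
  have h1 := card_clF (f := f₀) (G := insert f₁ F) hp (hB p hp hz f₀ (mem_insert_self _ _))
  have h2 := card_clF (f := f₁) (G := insert f₀ F) hp
    (hB p hp hz f₁ (mem_insert_of_mem (mem_insert_self _ _)))
  rw [Finset.insert_comm] at h2
  have : (clF f₁ (insert f₀ F) p).card = (clF f₀ (insert f₁ F) p).card := by omega
  rw [this]

theorem prod_cl_le {f g : ℤ × ℤ} {G : Finset (ℤ × ℤ)} (hg : g ∈ G) {z κ : ℕ} (hB : Big (insert f G) z)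
    (hκ : G.card ≤ κ) {N : ℕ} {ε : ℝ} (q : ℕ) (hz : ∀ p ∈ q.primeFactors, z < p) :
    ∏ p ∈ q.primeFactors, ((cl f G g N ε p).card : ℝ) ≤ (κ : ℝ) ^ q.primeFactors.card := by
  rw [← prod_const]
  apply Finset.prod_le_prod
  · intro p _
    positivity
  · intro p hp
    exact_mod_cast (card_cl_le hg hB (Nat.prime_of_mem_primeFactors hp) (hz p hp)).trans hκ

/-- **The remainder terms.** -/
theorem Rr_le {ι : Type} [DecidableEq ι] (Ω : Finset ι) (w : ι → ℕ) {f g : ℤ × ℤ} {G : Finset (ℤ × ℤ)} (hg : g ∈ G)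
    {z κ : ℕ} (hB : Big (insert f G) z) (hκ : G.card ≤ κ) {N : ℕ} {ε : ℝ} (m₀ a : ℕ) (hm₀ : 0 < m₀)
    (ha : a.Coprime m₀) (hm : ∀ p : ℕ, p.Prime → z < p → ¬ p ∣ m₀) (q : ℕ) (hq : Squarefree q)
    (hz : ∀ p ∈ q.primeFactors, z < p) (hN : q ≤ N) (T E : ℝ)
    (hE : ∀ c : ℕ, c < m₀ * q → c.Coprime (m₀ * q) →
      |((Ω.filter (fun i => w i ≡ c [MOD (m₀ * q)])).card : ℝ) - T / (Nat.totient (m₀ * q) : ℝ)| ≤ E) :
    Rr (Ω.filter (fun i => w i ≡ a [MOD m₀])) (fun i => vw (cl f G g N ε) N z (w i)) (gg f G g N ε)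
      (T / (Nat.totient m₀ : ℝ)) q ≤ (κ : ℝ) ^ q.primeFactors.card * E := by
  classical
  have hprod : ∏ p ∈ q.primeFactors, p = q := Nat.prod_primeFactors_of_squarefree hq
  have hE0 : 0 ≤ E := by
    have h1 : 0 < m₀ * q := Nat.mul_pos hm₀ (Nat.pos_of_ne_zero hq.ne_zero)
    rcases Nat.lt_or_ge 1 (m₀ * q) with h2 | h2
    · exact (abs_nonneg _).trans (hE 1 h2 (Nat.coprime_one_left _))
    · have h3 : m₀ * q = 1 := by omega
      exact (abs_nonneg _).trans (hE 0 h1 (by rw [h3]; exact Nat.coprime_one_right _))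
  have key := cls Ω w q.primeFactors (fun p hp => Nat.prime_of_mem_primeFactors hp) (cl f G g N ε)
    (fun p _ => cl_ne_zero) m₀ a hm₀ ha
    (fun p hp => hm p (Nat.prime_of_mem_primeFactors hp) (hz p hp)) T E
    (by rw [hprod]; exact hE)
  unfold Rr
  rw [filter_filter]
  have e1 : (Ω.filter (fun i => w i ≡ a [MOD m₀] ∧ q ∣ vw (cl f G g N ε) N z (w i))) =
      Ω.filter (fun i => w i ≡ a [MOD m₀] ∧ ∀ p ∈ q.primeFactors, w i % p ∈ cl f G g N ε p) := by
    apply filter_congr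
    intro i _
    rw [sqf_dvd_vw hq hz hN]
  have e2 : gp (gg f G g N ε) q = ∏ p ∈ q.primeFactors, (((cl f G g N ε p).card : ℝ) / ((p : ℝ) - 1)) := by
    conv_lhs => rw [← hprod]
    rw [gp_prod _ _ (fun p hp => Nat.prime_of_mem_primeFactors hp)]
    rfl
  rw [e2]
  have e3 : (((Ω.filter (fun i => w i ≡ a [MOD m₀] ∧ q ∣ vw (cl f G g N ε) N z (w i))).card : ℕ) : ℝ) =
      (((Ω.filter (fun i => w i ≡ a [MOD m₀] ∧ ∀ p ∈ q.primeFactors, w i % p ∈ cl f G g N ε p)).card : ℕ) : ℝ) := by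
    rw [e1]
  rw [e3]
  refine key.trans ?_
  exact mul_le_mul_of_nonneg_right (prod_cl_le hg hB hκ q hz) hE0

end Pool.Agent.H76.CL
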