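import Pool.Agent.H76.CL.Abs

/-!
# Chen's theorem for systems of linear forms: determinants and inadmissible systems
-/

set_option autoImplicit false

namespace Pool.Agent.H76.CL

open Finset

/-- two primitive forms which are different up to sign are not proportional -/
theorem det_ne {a b a' b' : ℤ} (ha : a ≠ 0) (ha' : a' ≠ 0)
    (h1 : ∀ p : ℕ, p.Prime → ¬ ((p : ℤ) ∣ a ∧ (p : ℤ) ∣ b))
    (h2 : ∀ p : ℕ, p.Prime → ¬ ((p : ℤ) ∣ a' ∧ (p : ℤ) ∣ b')) (hne : ¬ (a = a' ∧ b = b'))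
    (hne' : ¬ (a = -a' ∧ b = -b')) : a * b' - a' * b ≠ 0 := by
  have hc : ∀ u v : ℤ, (∀ p : ℕ, p.Prime → ¬ ((p : ℤ) ∣ u ∧ (p : ℤ) ∣ v)) → IsCoprime u v := by
    intro u v h
    rw [Int.isCoprime_iff_gcd_eq_one]
    by_contra hg
    obtain ⟨p, hp, hd⟩ := Nat.exists_prime_and_dvd hg
    apply h p hp
    have h3 : (p : ℤ) ∣ (Int.gcd u v : ℤ) := by exact_mod_cast hd
    exact ⟨h3.trans (Int.gcd_dvd_left _ _), h3.trans (Int.gcd_dvd_right _ _)⟩
  intro h0
  have e : a * b' = a' * b := by linarith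
  have d1 : a ∣ a' := by
    apply (hc a b h1).dvd_of_dvd_mul_right
    exact ⟨b', e.symm⟩
  have d2 : a' ∣ a := by
    apply (hc a' b' h2).dvd_of_dvd_mul_right
    exact ⟨b, e⟩
  have d3 : a.natAbs = a'.natAbs := Int.natAbs_eq_of_dvd_dvd d1 d2
  rcases Int.natAbs_eq_natAbs_iff.1 d3 with h | h
  · apply hne
    refine ⟨h, ?_⟩
    rw [h] at e
    exact (mul_left_cancel₀ ha' e).symm
  · apply hne'
    refine ⟨h, ?_⟩
    rw [h] at e
    have e2 : a' * (-b') = a' * b := by linarith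
    exact (mul_left_cancel₀ ha' e2).symm

/-- the forms of an admissible system are primitive -/
theorem prim_of_adm {G : Finset (ℤ × ℤ)} (hA : Adm G) {f : ℤ × ℤ} (hf : f ∈ G) (p : ℕ) (hp : p.Prime) :
    ¬ ((p : ℤ) ∣ f.1 ∧ (p : ℤ) ∣ f.2) := by
  rintro ⟨h1, h2⟩
  obtain ⟨n, hn⟩ := hA p hp
  apply hn f hf
  unfold val
  exact dvd_add (h1.mul_right _) h2

/-- the prime obstructing the admissibility is small -/
theorem inadm {G : Finset (ℤ × ℤ)} {k K : ℕ} (hG : G.card ≤ k) (hK : ∀ f ∈ G, f.1 ≠ 0 ∧ |f.1| ≤ K) (hA : ¬ Adm G) :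
    ∃ p : ℕ, p.Prime ∧ p ≤ k + K ∧ rts G p = range p := by
  unfold Adm at hA
  push Not at hA
  obtain ⟨p, hp, h⟩ := hA
  have h1 : rts G p = range p := by
    unfold rts
    apply filter_true_of_mem
    intro m _
    exact h m
  refine ⟨p, hp, ?_, h1⟩
  by_contra hlt
  push Not at hlt
  have h2 : (rts G p).card ≤ G.card := by
    apply card_rts_le hp
    intro g hg hd
    obtain ⟨g1, g2⟩ := hK g hg
    have h3 := Int.le_of_dvd (abs_pos.2 g1) ((dvd_abs _ _).2 hd)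
    have h4 : (p : ℤ) ≤ K := h3.trans g2
    omega
  rw [h1, card_range] at h2
  omega

end Pool.Agent.H76.CL
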