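import Pool.Agent.H76.CL.Main

/-!
# Chen's theorem for systems of linear forms: final form
-/

set_option autoImplicit false

namespace Pool.Agent.H76.CL

open Finset Filter

/-- the square root of `B` is at most `N` -/
theorem sqrt_le_N {K B : ℕ} (hK : 1 ≤ K) (hB : 16 ≤ B) : √(B : ℝ) ≤ (Nat.sqrt (2 * K * B) : ℝ) := by
  set N := Nat.sqrt (2 * K * B) with hN
  have h1 : 2 * K * B < (N + 1) ^ 2 := Nat.lt_succ_sqrt' _
  have h2 : 2 * B ≤ 2 * K * B := by
    calc 2 * B = 2 * 1 * B := by ring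
      _ ≤ 2 * K * B := Nat.mul_le_mul_right _ (Nat.mul_le_mul_left _ hK)
  have h3 : (2 * (B : ℝ)) ≤ ((N : ℝ) + 1) ^ 2 := by exact_mod_cast (h2.trans h1.le)
  have h4 : (16 : ℝ) ≤ B := by exact_mod_cast hB
  have h5 : √(B : ℝ) ^ 2 = B := Real.sq_sqrt (by linarith)
  have h6 : 4 ≤ √(B : ℝ) := Real.le_sqrt_of_sq_le (by linarith)
  by_contra h
  push Not at h
  have h7 : (0 : ℝ) ≤ N := Nat.cast_nonneg _
  nlinarith

open Classical in
/-- **Chen's theorem for systems of linear forms.**  Let `f₀`, `f₁` and the elements of `F` be linear forms, at most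
`κ + 1` of them, with nonzero leading coefficients of absolute value at most `K`, which have no fixed prime divisor; the
constant terms of `f₀` and `f₁` are at most `K B` (those of the elements of `F` are arbitrary), `f₀` and `f₁` are not
proportional and have values `≥ θ B` on `(A, B]`, where `B - A ≥ θ B`.  Then for at least `c B / (log B) ^ (κ + 1)`, and at
least `c B` times the density of the integers at which no value of a form is divisible by a prime `≤ B`, of the `n` in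
`(A, B]` the number `f₀ n` is prime, `f₁ n` has at most two prime factors, all of them `≥ B ^ (1 / 8)`, and
the `f n`, `f ∈ F`, have no prime factors `< B ^ ε`. -/
theorem chen_forms (κ K : ℕ) (hκ : 1 ≤ κ) (hK1 : 1 ≤ K) (θ : ℝ) (hθ : 0 < θ) (hθ1 : θ ≤ 1) :
    ∃ ε c : ℝ, 0 < ε ∧ ε ≤ 1 / 16 ∧ 0 < c ∧ ∃ B₀ : ℕ, ∀ B : ℕ, B₀ ≤ B → ∀ A : ℕ, (A : ℝ) + θ * B ≤ B →
      ∀ (f₀ f₁ : ℤ × ℤ) (F : Finset (ℤ × ℤ)), F.card + 1 ≤ κ →
      (∀ f ∈ insert f₀ (insert f₁ F), f.1 ≠ 0 ∧ |f.1| ≤ K) → |f₀.2| ≤ K * B → |f₁.2| ≤ K * B →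
      f₀.1 * f₁.2 - f₁.1 * f₀.2 ≠ 0 →
      (∀ n : ℤ, A < n → n ≤ B → θ * B ≤ (val f₀ n : ℝ) ∧ θ * B ≤ (val f₁ n : ℝ)) →
      Adm (insert f₀ (insert f₁ F)) →
      c * B / Real.log B ^ (κ + 1) ≤ ((GoodB f₀ f₁ F A B ε).card : ℝ) ∧
      c * B * SS (insert f₀ (insert f₁ F)) B ≤ ((GoodB f₀ f₁ F A B ε).card : ℝ) := by
  obtain ⟨ε, c, hε0, hε8, hc, B₀, hB₀⟩ := chen_N κ K hκ hK1 θ hθ hθ1
  refine ⟨ε / 2, c, by positivity, by linarith, hc, B₀ + 16, ?_⟩
  intro B hB A hAB f₀ f₁ F hF hco hb₀ hb₁ hD hpos hAdm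
  obtain ⟨hm1, hm2⟩ := hB₀ B (by omega) A hAB f₀ f₁ F hF hco hb₀ hb₁ hD hpos hAdm
  have hB16 : (16 : ℝ) ≤ B := by exact_mod_cast (by omega : 16 ≤ B)
  have hN := sqrt_le_N hK1 (by omega : 16 ≤ B)
  set N := Nat.sqrt (2 * K * B) with hNd
  have hpw : ∀ x : ℝ, 0 < x → (B : ℝ) ^ (x / 2) ≤ (N : ℝ) ^ x := by
    intro x hx
    calc (B : ℝ) ^ (x / 2) = (√(B : ℝ)) ^ x := by
          rw [Real.sqrt_eq_rpow, ← Real.rpow_mul (by linarith)]
          congr 1
          ring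
      _ ≤ (N : ℝ) ^ x := Real.rpow_le_rpow (Real.sqrt_nonneg _) hN hx.le
  have h8 : (B : ℝ) ^ (1 / 8 : ℝ) ≤ (N : ℝ) ^ (1 / 4 : ℝ) := by
    have := hpw (1 / 4) (by norm_num)
    norm_num at this
    convert this using 2
  have hε' := hpw ε hε0
  have hsub : Good f₀ f₁ F N A B ε ⊆ GoodB f₀ f₁ F A B (ε / 2) := by
    intro n hn
    unfold Good at hn
    unfold GoodB
    rw [mem_filter] at hn ⊢
    obtain ⟨h1, h2, h3, h4, h5⟩ := hn
    exact ⟨h1, h2, h3, fun p hp hd => h8.trans (h4 p hp hd), fun f hf p hp hd => hε'.trans (h5 f hf p hp hd)⟩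
  have hle : ((Good f₀ f₁ F N A B ε).card : ℝ) ≤ ((GoodB f₀ f₁ F A B (ε / 2)).card : ℝ) := by
    exact_mod_cast card_le_card hsub
  exact ⟨hm1.trans hle, hm2.trans hle⟩

/-- a number whose prime factors are all large has few of them -/
theorem few {a m : ℕ} {y : ℝ} (hm : m ≠ 0) (h : ∀ q : ℕ, q.Prime → q ∣ m → y ≤ q)
    (hma : (m : ℝ) < y ^ (a + 1)) (hy1 : 1 ≤ y) : m.primeFactorsList.length ≤ a := by
  by_contra hcon
  push Not at hcon
  have key : ∀ l : List ℕ, (∀ q ∈ l, y ≤ q) → y ^ l.length ≤ ((l.prod : ℕ) : ℝ) := by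
    intro l
    induction l with
    | nil => intro _; simp
    | cons b l ih =>
      intro hl
      rw [List.length_cons, List.prod_cons, pow_succ, Nat.cast_mul, mul_comm]
      have h1 := ih (fun q hq => hl q (List.mem_cons_of_mem _ hq))
      have h2 := hl b List.mem_cons_self
      exact mul_le_mul h2 h1 (by positivity) (by positivity)
  have h1 := key m.primeFactorsList (fun q hq =>
    h q (Nat.prime_of_mem_primeFactorsList hq) (Nat.dvd_of_mem_primeFactorsList hq))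
  rw [Nat.prod_primeFactorsList hm] at h1
  have h2 : y ^ (a + 1) ≤ y ^ m.primeFactorsList.length := pow_le_pow_right₀ hy1 (by omega)
  linarith

open Classical in
/-- the `n` in `(A, B]` for which `f₀ n` is prime, `f₁ n` has at most two prime factors, all of them `≥ B ^ (1 / 8)`,
and all `f n`, `f ∈ G`, have at most `r` prime factors, all of them `≥ B ^ ε` -/
noncomputable def Sys (f₀ f₁ : ℤ × ℤ) (G : Finset (ℤ × ℤ)) (A B r : ℕ) (ε : ℝ) : Finset ℕ :=
  (Ioc A B).filter (fun n => (val f₀ n).toNat.Prime ∧ (val f₁ n).toNat.primeFactorsList.length ≤ 2 ∧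
    (∀ p : ℕ, p.Prime → (p : ℤ) ∣ val f₁ n → (B : ℝ) ^ (1 / 8 : ℝ) ≤ p) ∧
    ∀ f ∈ G, (val f n).natAbs.primeFactorsList.length ≤ r ∧
      ∀ p : ℕ, p.Prime → (p : ℤ) ∣ val f n → (B : ℝ) ^ ε ≤ p)

open Classical in
/-- Chen's theorem for a system `G` of at most `k` linear forms, two of them distinguished. -/
theorem chen_sys (k K : ℕ) (hk : 2 ≤ k) (hK1 : 1 ≤ K) (θ : ℝ) (hθ : 0 < θ) (hθ1 : θ ≤ 1) :
    ∃ ε c : ℝ, 0 < ε ∧ ε ≤ 1 / 16 ∧ 0 < c ∧ ∃ r B₀ : ℕ, ∀ B : ℕ, B₀ ≤ B → ∀ A : ℕ, (A : ℝ) + θ * B ≤ B →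
      ∀ G : Finset (ℤ × ℤ), G.card ≤ k → ∀ f₀ ∈ G, ∀ f₁ ∈ G, f₀ ≠ f₁ →
      (∀ f ∈ G, f.1 ≠ 0 ∧ |f.1| ≤ K ∧ |f.2| ≤ (B : ℤ) ^ K) → |f₀.2| ≤ K * B → |f₁.2| ≤ K * B →
      f₀.1 * f₁.2 - f₁.1 * f₀.2 ≠ 0 →
      (∀ n : ℤ, A < n → n ≤ B → θ * B ≤ (val f₀ n : ℝ) ∧ θ * B ≤ (val f₁ n : ℝ)) →
      Adm G →
      c * B / Real.log B ^ k ≤ ((Sys f₀ f₁ G A B r ε).card : ℝ) ∧
      c * B * SS G B ≤ ((Sys f₀ f₁ G A B r ε).card : ℝ) := by
  obtain ⟨ε, c, hε0, hε1, hc, B₀, hB₀⟩ := chen_forms (k - 1) K (by omega) hK1 θ hθ hθ1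
  have ev1 : ∀ᶠ B : ℕ in atTop, 3 ≤ (B : ℝ) ^ ε :=
    (Tendsto.comp (tendsto_rpow_atTop hε0) tendsto_natCast_atTop_atTop).eventually_ge_atTop 3
  have ev2 : ∀ᶠ B : ℕ in atTop, 1 / θ ≤ (B : ℝ) ^ (1 - ε) :=
    (Tendsto.comp (tendsto_rpow_atTop (by linarith)) tendsto_natCast_atTop_atTop).eventually_ge_atTop _
  obtain ⟨B₁, hB₁⟩ := eventually_atTop.1 (ev1.and ev2)
  refine ⟨ε, c, hε0, hε1, hc, ⌈((K : ℝ) + 2) / ε⌉₊, B₀ + B₁ + K + 16, ?_⟩
  intro B hB A hAB G hG f₀ h₀ f₁ h₁ hne hco hb₀ hb₁ hD hpos hAdm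
  obtain ⟨g1, g2⟩ := hB₁ B (by omega)
  have hBr : (16 : ℝ) ≤ B := by exact_mod_cast (by omega : 16 ≤ B)
  have hB0 : (0 : ℝ) < B := by linarith
  set F : Finset (ℤ × ℤ) := (G.erase f₀).erase f₁ with hF
  have h₁' : f₁ ∈ G.erase f₀ := mem_erase.2 ⟨hne.symm, h₁⟩
  have hins : insert f₀ (insert f₁ F) = G := by
    rw [hF, insert_erase h₁', insert_erase h₀]
  have hcard : F.card + 1 ≤ k - 1 := by
    rw [hF, card_erase_of_mem h₁', card_erase_of_mem h₀]
    have h2 : 2 ≤ G.card := by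
      have : ({f₀, f₁} : Finset (ℤ × ℤ)).card ≤ G.card := by
        apply card_le_card
        intro f hf
        rw [mem_insert, mem_singleton] at hf
        rcases hf with rfl | rfl
        · exact h₀
        · exact h₁
      rwa [card_pair hne] at this
    omega
  have hmain := hB₀ B (by omega) A hAB f₀ f₁ F hcard (by rw [hins]; exact fun f hf => ⟨(hco f hf).1, (hco f hf).2.1⟩)
    hb₀ hb₁ hD hpos (by rw [hins]; exact hAdm)
  rw [Nat.sub_add_cancel (by omega : 1 ≤ k), hins] at hmain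
  have hsub : GoodB f₀ f₁ F A B ε ⊆ Sys f₀ f₁ G A B ⌈((K : ℝ) + 2) / ε⌉₊ ε := by
    intro n hn
    unfold GoodB at hn
    unfold Sys
    rw [mem_filter] at hn ⊢
    obtain ⟨e1, e2, e3, e4, e5⟩ := hn
    have hnA := (mem_Ioc.1 e1).1
    have hnB := (mem_Ioc.1 e1).2
    have hlarge : ∀ f ∈ G, ∀ p : ℕ, p.Prime → (p : ℤ) ∣ val f n → (B : ℝ) ^ ε ≤ p := by
      intro f hf p hp hd
      rw [← hins, mem_insert, mem_insert] at hf
      rcases hf with rfl | rfl | hf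
      · have hv := (hpos n (by exact_mod_cast hnA) (by exact_mod_cast hnB)).1
        have hv0 : 0 ≤ val f n := by
          have : (0 : ℝ) ≤ (val f n : ℝ) := le_trans (by positivity) hv
          exact_mod_cast this
        have hd' : p ∣ (val f n).toNat := by
          rw [← Int.natCast_dvd_natCast, Int.toNat_of_nonneg hv0]
          exact hd
        have he := (Nat.prime_dvd_prime_iff_eq hp e2).1 hd'
        have hpv : (p : ℝ) = (val f n : ℝ) := by
          have : (p : ℤ) = val f n := by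
            rw [he]
            exact Int.toNat_of_nonneg hv0
          exact_mod_cast this
        rw [hpv]
        refine le_trans ?_ hv
        have e : (B : ℝ) = (B : ℝ) ^ (1 - ε) * (B : ℝ) ^ ε := by
          rw [← Real.rpow_add hB0]
          norm_num
        have g3 : 1 / θ * (B : ℝ) ^ ε ≤ B := by
          conv_rhs => rw [e]
          exact mul_le_mul_of_nonneg_right g2 (by positivity)
        have g4 := mul_le_mul_of_nonneg_left g3 hθ.le
        have e6 : θ * (1 / θ * (B : ℝ) ^ ε) = (B : ℝ) ^ ε := by field_simp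
        linarith
      · refine le_trans ?_ (e4 p hp hd)
        exact Real.rpow_le_rpow_of_exponent_le (by linarith) (by linarith)
      · exact e5 f hf p hp hd
    refine ⟨e1, e2, e3, e4, fun f hf => ⟨?_, hlarge f hf⟩⟩
    have hne0 : val f n ≠ 0 := by
      intro h0
      have := hlarge f hf 2 Nat.prime_two (by rw [h0]; exact dvd_zero _)
      push_cast at this
      linarith
    refine few (Int.natAbs_ne_zero.2 hne0) ?_ ?_ (by linarith : 1 ≤ (B : ℝ) ^ ε)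
    · intro q hq hd
      exact hlarge f hf q hq (Int.natCast_dvd.2 hd)
    · obtain ⟨-, c1, c2⟩ := hco f hf
      have hb1 : |val f n| ≤ (B : ℤ) ^ (K + 2) - 1 := by
        have hBz : (16 : ℤ) ≤ B := by exact_mod_cast (by omega : 16 ≤ B)
        have hKB : (K : ℤ) ≤ B := by exact_mod_cast (by omega : K ≤ B)
        have t1 : |f.1 * (n : ℤ)| ≤ B * B := by
          rw [abs_mul]
          apply mul_le_mul (c1.trans hKB) _ (abs_nonneg _) (by linarith)
          rw [Nat.abs_cast]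
          exact_mod_cast hnB
        have t2 : |val f n| ≤ B * B + (B : ℤ) ^ K := (abs_add_le _ _).trans (add_le_add t1 c2)
        have t3 : (B : ℤ) ≤ (B : ℤ) ^ K := by
          calc (B : ℤ) = (B : ℤ) ^ 1 := (pow_one _).symm
            _ ≤ (B : ℤ) ^ K := pow_le_pow_right₀ (by linarith) hK1
        have t4 : (B : ℤ) ^ (K + 2) = (B : ℤ) ^ K * (B * B) := by ring
        rw [t4]
        have t5 : (2 : ℤ) ≤ ((B : ℤ) * B - 1) * ((B : ℤ) ^ K - 1) := by
          have s1 : (2 : ℤ) ≤ (B : ℤ) * B - 1 := by nlinarith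
          have s2 : (1 : ℤ) ≤ (B : ℤ) ^ K - 1 := by linarith
          calc (2 : ℤ) = 2 * 1 := by norm_num
            _ ≤ _ := mul_le_mul s1 s2 (by norm_num) (by linarith)
        have t6 : ((B : ℤ) * B - 1) * ((B : ℤ) ^ K - 1) = (B : ℤ) ^ K * (B * B) - B * B - (B : ℤ) ^ K + 1 := by ring
        linarith
      have hb2 : ((val f n).natAbs : ℝ) < (B : ℝ) ^ (K + 2) := by
        have t1 : (((val f n).natAbs : ℕ) : ℤ) < (B : ℤ) ^ (K + 2) := by
          rw [Int.natCast_natAbs]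
          linarith
        have t2 : ((((val f n).natAbs : ℕ) : ℤ) : ℝ) < (((B : ℤ) ^ (K + 2) : ℤ) : ℝ) := by exact_mod_cast t1
        push_cast at t2
        rw [Nat.cast_natAbs]
        push_cast
        exact t2
      refine hb2.trans_le ?_
      rw [← Real.rpow_natCast, ← Real.rpow_natCast, ← Real.rpow_mul hB0.le]
      apply Real.rpow_le_rpow_of_exponent_le (by linarith)
      have h3 := Nat.le_ceil (((K : ℝ) + 2) / ε)
      rw [div_le_iff₀ hε0] at h3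
      push_cast
      nlinarith
  have hle : ((GoodB f₀ f₁ F A B ε).card : ℝ) ≤ ((Sys f₀ f₁ G A B ⌈((K : ℝ) + 2) / ε⌉₊ ε).card : ℝ) := by
    exact_mod_cast card_le_card hsub
  exact ⟨hmain.1.trans hle, hmain.2.trans hle⟩

end Pool.Agent.H76.CL
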