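import Pool.Agent.H76.CL.Pos

/-!
# Chen's theorem for systems of linear forms: the singular series in the usual form
-/

set_option autoImplicit false

namespace Pool.Agent.H76.CL

open Finset Pool.Agent.Y660.RP

/-- a lower bound of Mertens type -/
theorem mert_low : ∃ c : ℝ, 0 < c ∧ ∀ x : ℕ, 4 ≤ x →
    c ≤ Real.log x * ∏ p ∈ (Icc 1 x).filter Nat.Prime, (1 - 1 / (p : ℝ)) := by
  obtain ⟨c, hc, h⟩ := Pool.Agent.H76.CH.V_low 1 4 (by norm_num)
  have hf : ∀ p : ℕ, p.Prime → (1 / 2 : ℝ) ≤ 1 - 1 / (p : ℝ) ∧ 1 - 1 / (p : ℝ) ≤ 1 := by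
    intro p hp
    have hp2 : (2 : ℝ) ≤ p := by exact_mod_cast hp.two_le
    constructor
    · have : 1 / (p : ℝ) ≤ 1 / 2 := one_div_le_one_div_of_le (by norm_num) hp2
      linarith
    · have : 0 ≤ 1 / (p : ℝ) := by positivity
      linarith
  refine ⟨(1 / 2) ^ 4 * c, by positivity, ?_⟩
  intro x hx
  have h1 := h x hx 2 (fun p => ((1 : ℕ) : ℝ) / ((p : ℝ) - 1)) (fun p _ => rfl)
  have hxr : (4 : ℝ) ≤ x := by exact_mod_cast hx
  have hlx : 0 < Real.log x := Real.log_pos (by linarith)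
  rw [pow_one, div_le_iff₀ hlx] at h1
  have h2 : ∏ p ∈ P1 x 4 2, (1 - ((1 : ℕ) : ℝ) / ((p : ℝ) - 1)) ≤ ∏ p ∈ P1 x 4 2, (1 - 1 / (p : ℝ)) := by
    apply prod_le_prod
    · intro p hp
      obtain ⟨⟨a1, a2⟩, a3, a4⟩ := mem_P1.1 hp
      have : (5 : ℝ) ≤ p := by exact_mod_cast a1
      rw [sub_nonneg, div_le_one (by linarith)]
      push_cast
      linarith
    · intro p hp
      obtain ⟨⟨a1, a2⟩, a3, a4⟩ := mem_P1.1 hp
      have : (5 : ℝ) ≤ p := by exact_mod_cast a1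
      have h3 : 1 / (p : ℝ) ≤ 1 / ((p : ℝ) - 1) := one_div_le_one_div_of_le (by linarith) (by linarith)
      push_cast
      linarith
  have hsub : P1 x 4 2 ⊆ (Icc 1 x).filter Nat.Prime := by
    intro p hp
    obtain ⟨⟨a1, a2⟩, a3, a4⟩ := mem_P1.1 hp
    rw [mem_filter, mem_Icc]
    exact ⟨⟨a3.pos, a2⟩, a3⟩
  have hdiff : ((Icc 1 x).filter Nat.Prime) \ P1 x 4 2 ⊆ Icc 1 4 := by
    intro p hp
    rw [mem_sdiff, mem_filter, mem_Icc] at hp
    rw [mem_Icc]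
    refine ⟨hp.1.1.1, ?_⟩
    by_contra hlt
    push Not at hlt
    apply hp.2
    rw [mem_P1]
    refine ⟨⟨hlt, hp.1.1.2⟩, hp.1.2, ?_⟩
    have h3 : (p : ℝ) ≤ x := by exact_mod_cast hp.1.1.2
    have h4 : (x : ℝ) ^ (2 : ℝ) = (x : ℝ) ^ 2 := by norm_num
    rw [h4]
    nlinarith
  have h3 : (1 / 2 : ℝ) ^ 4 ≤ ∏ p ∈ ((Icc 1 x).filter Nat.Prime) \ P1 x 4 2, (1 - 1 / (p : ℝ)) := by
    calc (1 / 2 : ℝ) ^ 4 ≤ (1 / 2 : ℝ) ^ (((Icc 1 x).filter Nat.Prime) \ P1 x 4 2).card := by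
          apply pow_le_pow_of_le_one (by norm_num) (by norm_num)
          have := card_le_card hdiff
          simpa using this
      _ = ∏ p ∈ ((Icc 1 x).filter Nat.Prime) \ P1 x 4 2, (1 / 2 : ℝ) := by rw [prod_const]
      _ ≤ _ := by
          apply prod_le_prod
          · intro p _
            norm_num
          · intro p hp
            exact (hf p (mem_filter.1 (mem_sdiff.1 hp).1).2).1
  rw [← Finset.prod_sdiff hsub]
  have h4 : 0 ≤ ∏ p ∈ P1 x 4 2, (1 - ((1 : ℕ) : ℝ) / ((p : ℝ) - 1)) := by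
    by_contra hneg
    push Not at hneg
    nlinarith
  calc (1 / 2 : ℝ) ^ 4 * c ≤ (∏ p ∈ ((Icc 1 x).filter Nat.Prime) \ P1 x 4 2, (1 - 1 / (p : ℝ))) *
        ((∏ p ∈ P1 x 4 2, (1 - ((1 : ℕ) : ℝ) / ((p : ℝ) - 1))) * Real.log x) :=
        mul_le_mul h3 h1 hc.le (le_trans (by positivity) h3)
    _ ≤ (∏ p ∈ ((Icc 1 x).filter Nat.Prime) \ P1 x 4 2, (1 - 1 / (p : ℝ))) *
        ((∏ p ∈ P1 x 4 2, (1 - 1 / (p : ℝ))) * Real.log x) := by
        apply mul_le_mul_of_nonneg_left _ (le_trans (by positivity) h3)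
        exact mul_le_mul_of_nonneg_right h2 hlx.le
    _ = _ := by ring

/-- the singular series in the usual form -/
theorem sing_form (k : ℕ) : ∃ c : ℝ, 0 < c ∧ ∀ x : ℕ, 4 ≤ x → ∀ ρ : ℕ → ℕ, (∀ p : ℕ, p.Prime → ρ p ≤ p) →
    c * (∏ p ∈ (Icc 1 x).filter Nat.Prime, (1 - (ρ p : ℝ) / p) / (1 - 1 / (p : ℝ)) ^ k) * (x / Real.log x ^ k) ≤
      x * ∏ p ∈ (Icc 1 x).filter Nat.Prime, (1 - (ρ p : ℝ) / p) := by
  obtain ⟨c, hc, h⟩ := mert_low
  refine ⟨c ^ k, by positivity, ?_⟩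
  intro x hx ρ hρ
  have h1 := h x hx
  have hxr : (4 : ℝ) ≤ x := by exact_mod_cast hx
  have hlx : 0 < Real.log x := Real.log_pos (by linarith)
  set Q := ∏ p ∈ (Icc 1 x).filter Nat.Prime, (1 - 1 / (p : ℝ)) with hQ
  set R := ∏ p ∈ (Icc 1 x).filter Nat.Prime, (1 - (ρ p : ℝ) / p) with hR
  have hQ0 : 0 < Q := by
    by_contra hneg
    push Not at hneg
    nlinarith
  have hR0 : 0 ≤ R := by
    apply prod_nonneg
    intro p hp
    have hp' := (mem_filter.1 hp).2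
    have hp0 : (0 : ℝ) < p := by exact_mod_cast hp'.pos
    rw [sub_nonneg, div_le_one hp0]
    exact_mod_cast hρ p hp'
  rw [prod_div_distrib, prod_pow, ← hQ, ← hR]
  have h2 : c ^ k ≤ (Real.log x * Q) ^ k := pow_le_pow_left₀ hc.le h1 k
  calc c ^ k * (R / Q ^ k) * (x / Real.log x ^ k) ≤ (Real.log x * Q) ^ k * (R / Q ^ k) * (x / Real.log x ^ k) := by
        apply mul_le_mul_of_nonneg_right _ (by positivity)
        exact mul_le_mul_of_nonneg_right h2 (by positivity)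
    _ = x * R := by
        rw [mul_pow]
        field_simp

/-- a product of smaller factors -/
theorem SS_mono {G : Finset (ℤ × ℤ)} {B : ℕ} {ν : ℕ → ℕ} (h : ∀ p : ℕ, p.Prime → (rts G p).card ≤ ν p)
    (hν : ∀ p : ℕ, p.Prime → ν p ≤ p) : ∏ p ∈ (Icc 1 B).filter Nat.Prime, (1 - (ν p : ℝ) / p) ≤ SS G B := by
  unfold SS
  apply prod_le_prod
  · intro p hp
    have hp' := (mem_filter.1 hp).2
    have hp0 : (0 : ℝ) < p := by exact_mod_cast hp'.pos
    rw [sub_nonneg, div_le_one hp0]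
    exact_mod_cast hν p hp'
  · intro p hp
    have hp' := (mem_filter.1 hp).2
    have hp0 : (0 : ℝ) < p := by exact_mod_cast hp'.pos
    have h1 : ((rts G p).card : ℝ) ≤ ν p := by exact_mod_cast h p hp'
    have h2 := div_le_div_of_nonneg_right h1 hp0.le
    linarith

theorem SS_anti (G : Finset (ℤ × ℤ)) {B n : ℕ} (h : B ≤ n) : SS G n ≤ SS G B := by
  refine (SS_le G n ((Icc 1 B).filter Nat.Prime) ?_).trans le_rfl
  intro p hp
  rw [mem_filter, mem_Icc] at hp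
  exact ⟨hp.2, hp.1.2.trans h⟩

/-- the two lower bounds in one, with another variable of the same order -/
theorem both (k : ℕ) (Λ : ℝ) (hΛ : 1 ≤ Λ) : ∃ c' : ℝ, 0 < c' ∧ ∀ c X : ℝ, 0 < c → ∀ B n : ℕ, 4 ≤ B → B ≤ n →
    (n : ℝ) ≤ Λ * B → ∀ (G : Finset (ℤ × ℤ)) (ν : ℕ → ℕ), (∀ p : ℕ, p.Prime → (rts G p).card ≤ ν p) →
    (∀ p : ℕ, p.Prime → ν p ≤ p) → c * B / Real.log B ^ k ≤ X → c * B * SS G B ≤ X →
    c * c' * (1 + ∏ p ∈ (Icc 1 n).filter Nat.Prime, (1 - (ν p : ℝ) / p) / (1 - 1 / (p : ℝ)) ^ k) *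
      (n / Real.log n ^ k) ≤ X := by
  obtain ⟨c₀, hc₀, h⟩ := sing_form k
  have hΛ0 : 0 < Λ := by linarith
  refine ⟨min 1 c₀ / (2 * Λ), by positivity, ?_⟩
  intro c X hc B n hB hBn hn G ν hν1 hν2 h1 h2
  have h3 := h n (by omega) ν hν2
  set S := ∏ p ∈ (Icc 1 n).filter Nat.Prime, (1 - (ν p : ℝ) / p) / (1 - 1 / (p : ℝ)) ^ k with hS
  have hBr : (4 : ℝ) ≤ B := by exact_mod_cast hB
  have hBn' : (B : ℝ) ≤ n := by exact_mod_cast hBn
  have hlB : 0 < Real.log B := Real.log_pos (by linarith)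
  have hln : 0 < Real.log n := Real.log_pos (by linarith)
  have hll : Real.log B ≤ Real.log n := Real.log_le_log (by linarith) hBn'
  have hS0 : 0 ≤ S := by
    apply prod_nonneg
    intro p hp
    have hp' := (mem_filter.1 hp).2
    have hp2 : (2 : ℝ) ≤ p := by exact_mod_cast hp'.two_le
    apply div_nonneg
    · rw [sub_nonneg, div_le_one (by linarith)]
      exact_mod_cast hν2 p hp'
    · apply pow_nonneg
      rw [sub_nonneg, div_le_one (by linarith)]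
      linarith
  have h4 : (n : ℝ) / Real.log n ^ k ≤ Λ * (B / Real.log B ^ k) := by
    rw [← mul_div_assoc]
    exact div_le_div₀ (by positivity) hn (by positivity) (pow_le_pow_left₀ hlB.le hll k)
  have h5 : c₀ * S * (n / Real.log n ^ k) ≤ Λ * (B * SS G B) := by
    refine h3.trans ?_
    calc (n : ℝ) * ∏ p ∈ (Icc 1 n).filter Nat.Prime, (1 - (ν p : ℝ) / p) ≤ n * SS G B :=
          mul_le_mul_of_nonneg_left ((SS_mono hν1 hν2).trans (SS_anti G hBn)) (Nat.cast_nonneg _)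
      _ ≤ Λ * B * SS G B := mul_le_mul_of_nonneg_right hn (SS_nonneg G B)
      _ = _ := by ring
  set Y := (n : ℝ) / Real.log n ^ k with hY
  have hY0 : 0 ≤ Y := by positivity
  have h6 : min 1 c₀ * (1 + S) * Y ≤ Λ * (B / Real.log B ^ k) + Λ * (B * SS G B) := by
    have g1 : min 1 c₀ * Y ≤ 1 * Y := mul_le_mul_of_nonneg_right (min_le_left _ _) hY0
    have g2 : min 1 c₀ * (S * Y) ≤ c₀ * (S * Y) := mul_le_mul_of_nonneg_right (min_le_right _ _) (by positivity)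
    calc min 1 c₀ * (1 + S) * Y = min 1 c₀ * Y + min 1 c₀ * (S * Y) := by ring
      _ ≤ 1 * Y + c₀ * (S * Y) := add_le_add g1 g2
      _ = Y + c₀ * S * Y := by ring
      _ ≤ _ := add_le_add h4 h5
  calc c * (min 1 c₀ / (2 * Λ)) * (1 + S) * Y = c / (2 * Λ) * (min 1 c₀ * (1 + S) * Y) := by ring
    _ ≤ c / (2 * Λ) * (Λ * (B / Real.log B ^ k) + Λ * (B * SS G B)) :=
        mul_le_mul_of_nonneg_left h6 (by positivity)
    _ = 1 / 2 * (c * B / Real.log B ^ k) + 1 / 2 * (c * B * SS G B) := by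
        field_simp
    _ ≤ X := by linarith

/-- an inadmissible system has a vanishing product -/
theorem prod_zero {x p : ℕ} (hp : p.Prime) (hpx : p ≤ x) {ρ : ℕ → ℕ} (h : ρ p = p) (k : ℕ) :
    ∏ p ∈ (Icc 1 x).filter Nat.Prime, (1 - (ρ p : ℝ) / p) / (1 - 1 / (p : ℝ)) ^ k = 0 := by
  apply prod_eq_zero (i := p)
  · rw [mem_filter, mem_Icc]
    exact ⟨⟨hp.pos, hpx⟩, hp⟩
  · have hp0 : (p : ℝ) ≠ 0 := by exact_mod_cast hp.ne_zero
    rw [h, div_self hp0, sub_self, zero_div]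

end Pool.Agent.H76.CL
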