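import Pool.Agent.H76.CL.Prep
import Pool.Agent.H76.CH.Main

/-!
# Chen's theorem for linear forms: the singular series
-/

set_option autoImplicit false

namespace Pool.Agent.H76.CL

open Finset Filter Pool.Agent.W23.DC Pool.Agent.Y660.RP Pool.Agent.Y843.CH Pool.Agent.H76.CH

/-- the density of the integers at which no value of a form of `G` is divisible by a prime `≤ B` -/
noncomputable def SS (G : Finset (ℤ × ℤ)) (B : ℕ) : ℝ :=
  ∏ p ∈ (Icc 1 B).filter Nat.Prime, (1 - ((rts G p).card : ℝ) / p)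

theorem rts_factor (G : Finset (ℤ × ℤ)) {p : ℕ} (hp : p.Prime) :
    0 ≤ 1 - ((rts G p).card : ℝ) / p ∧ 1 - ((rts G p).card : ℝ) / p ≤ 1 := by
  have hp0 : (0 : ℝ) < p := by exact_mod_cast hp.pos
  have h1 : (rts G p).card ≤ p := by
    have := card_le_card (filter_subset (fun m : ℕ => ∃ g ∈ G, (p : ℤ) ∣ val g m) (range p))
    rwa [card_range] at this
  have h2 : ((rts G p).card : ℝ) ≤ p := by exact_mod_cast h1
  constructor
  · rw [sub_nonneg, div_le_one hp0]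
    exact h2
  · have : 0 ≤ ((rts G p).card : ℝ) / p := by positivity
    linarith

theorem SS_nonneg (G : Finset (ℤ × ℤ)) (B : ℕ) : 0 ≤ SS G B := by
  apply prod_nonneg
  intro p hp
  exact (rts_factor G (mem_filter.1 hp).2).1

/-- the product over fewer primes is larger -/
theorem SS_le (G : Finset (ℤ × ℤ)) (B : ℕ) (S : Finset ℕ) (hS : ∀ p ∈ S, p.Prime ∧ p ≤ B) :
    SS G B ≤ ∏ p ∈ S, (1 - ((rts G p).card : ℝ) / p) := by
  have hsub : S ⊆ (Icc 1 B).filter Nat.Prime := by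
    intro p hp
    obtain ⟨h1, h2⟩ := hS p hp
    rw [mem_filter, mem_Icc]
    exact ⟨⟨h1.pos, h2⟩, h1⟩
  unfold SS
  rw [← Finset.prod_sdiff hsub]
  apply mul_le_of_le_one_left
  · exact prod_nonneg fun p hp => (rts_factor G (hS p hp).1).1
  · apply prod_le_one
    · intro p hp
      exact (rts_factor G (mem_filter.1 (mem_sdiff.1 hp).1).2).1
    · intro p hp
      exact (rts_factor G (mem_filter.1 (mem_sdiff.1 hp).1).2).2

/-- a Mertens type lower bound -/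
theorem mert (z : ℕ) (hz : 2 ≤ z) (ε : ℝ) (hε : 0 < ε) (hε1 : ε ≤ 1) : ∃ c : ℝ, 0 < c ∧ ∃ N₀ : ℕ, ∀ N : ℕ, N₀ ≤ N →
    c * Real.log N * ∏ p ∈ P1 N z ε, (1 - 1 / (p : ℝ)) ≤ 1 := by
  obtain ⟨C, hC0, hC⟩ := Pool.Agent.Helper923.HMertens.mertens_ratio
  have hlz : 0 < Real.log z := Real.log_pos (by exact_mod_cast (by omega : 1 < z))
  have ev1 : ∀ᶠ N : ℕ in atTop, (z : ℝ) + 2 ≤ (N : ℝ) ^ (ε / 2) :=
    (Tendsto.comp (tendsto_rpow_atTop (by positivity)) tendsto_natCast_atTop_atTop).eventually_ge_atTop _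
  obtain ⟨N₀, hN₀⟩ := eventually_atTop.1 ev1
  refine ⟨ε / 2 / Real.log z * Real.exp (-(C / Real.log z)), by positivity, N₀ + 2, ?_⟩
  intro N hN
  have h1 := hN₀ N (by omega)
  have hNr : (2 : ℝ) ≤ N := by exact_mod_cast (by omega : 2 ≤ N)
  have hz0 : (2 : ℝ) ≤ z := by exact_mod_cast hz
  set x := (N : ℝ) ^ (ε / 2) with hx
  have hxx : (N : ℝ) ^ ε = x * x := by
    rw [hx, ← Real.rpow_add (by linarith)]
    congr 1
    ring
  set b := ⌊x⌋₊ + 1 with hb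
  have hbx : x ≤ b := by
    have := (Nat.lt_floor_add_one x).le
    rw [hb]
    push_cast
    exact this
  have hbx' : (b : ℝ) < (N : ℝ) ^ ε := by
    rw [hxx, hb]
    push_cast
    have := Nat.floor_le (by linarith : 0 ≤ x)
    nlinarith
  have hbN : (b : ℝ) ≤ N := by
    refine hbx'.le.trans ?_
    calc (N : ℝ) ^ ε ≤ (N : ℝ) ^ (1 : ℝ) := Real.rpow_le_rpow_of_exponent_le (by linarith) hε1
      _ = N := Real.rpow_one _
  have hbN' : b ≤ N := by exact_mod_cast hbN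
  have hzb : z ≤ b := by
    have : (z : ℝ) ≤ b := by linarith
    exact_mod_cast this
  have h2 := (abs_le.1 (hC z b hz hzb)).1
  set S := (Ioc z b).filter Nat.Prime with hS
  have hsub : S ⊆ P1 N z ε := by
    intro p hp
    rw [hS, mem_filter, mem_Ioc] at hp
    rw [mem_P1]
    refine ⟨⟨hp.1.1, by omega⟩, hp.2, ?_⟩
    have : (p : ℝ) ≤ b := by exact_mod_cast hp.1.2
    linarith
  have hlb : 0 < Real.log b := Real.log_pos (by linarith)
  have hlN : 0 < Real.log N := Real.log_pos (by linarith)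
  have hf : ∀ p ∈ P1 N z ε, (0 : ℝ) ≤ 1 - 1 / (p : ℝ) ∧ 1 - 1 / (p : ℝ) ≤ Real.exp (-(1 / (p : ℝ))) := by
    intro p hp
    have hp2 : (2 : ℝ) ≤ p := by exact_mod_cast (mem_P1.1 hp).2.1.two_le
    constructor
    · rw [sub_nonneg, div_le_one (by linarith)]
      linarith
    · have := Real.add_one_le_exp (-(1 / (p : ℝ)))
      linarith
  have h3 : ∏ p ∈ P1 N z ε, (1 - 1 / (p : ℝ)) ≤ Real.exp (-(∑ p ∈ P1 N z ε, 1 / (p : ℝ))) := by
    rw [← sum_neg_distrib, Real.exp_sum]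
    exact prod_le_prod (fun p hp => (hf p hp).1) (fun p hp => (hf p hp).2)
  have h4 : ∑ p ∈ S, (1 : ℝ) / p ≤ ∑ p ∈ P1 N z ε, 1 / (p : ℝ) :=
    sum_le_sum_of_subset_of_nonneg hsub (fun p _ _ => by positivity)
  have h5 : Real.exp (-(∑ p ∈ P1 N z ε, 1 / (p : ℝ))) ≤
      Real.exp (C / Real.log z) * (Real.log z / Real.log b) := by
    calc Real.exp (-(∑ p ∈ P1 N z ε, 1 / (p : ℝ))) ≤
        Real.exp (C / Real.log z - Real.log (Real.log b / Real.log z)) := by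
          apply Real.exp_le_exp.2
          linarith
      _ = Real.exp (C / Real.log z) * (Real.log z / Real.log b) := by
          rw [Real.exp_sub, Real.exp_log (by positivity)]
          field_simp
  have h6 : ε / 2 * Real.log N ≤ Real.log b := by
    rw [← Real.log_rpow (by linarith)]
    exact Real.log_le_log (by positivity) hbx
  calc ε / 2 / Real.log z * Real.exp (-(C / Real.log z)) * Real.log N * ∏ p ∈ P1 N z ε, (1 - 1 / (p : ℝ)) ≤
      ε / 2 / Real.log z * Real.exp (-(C / Real.log z)) * Real.log N *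
        (Real.exp (C / Real.log z) * (Real.log z / Real.log b)) :=
        mul_le_mul_of_nonneg_left (h3.trans h5) (by positivity)
    _ = (ε / 2 * Real.log N) / Real.log b * (Real.exp (-(C / Real.log z)) * Real.exp (C / Real.log z)) := by
        field_simp
    _ = (ε / 2 * Real.log N) / Real.log b := by
        rw [← Real.exp_add, neg_add_cancel, Real.exp_zero, mul_one]
    _ ≤ 1 := by
        rw [div_le_one hlb]
        exact h6

/-- the product of the densities in terms of the singular series -/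
theorem V_ser (z : ℕ) (hz : 2 ≤ z) (ε : ℝ) (hε : 0 < ε) (hε1 : ε ≤ 1) : ∃ c : ℝ, 0 < c ∧ ∃ N₀ : ℕ, ∀ N : ℕ, N₀ ≤ N →
    ∀ B : ℕ, N ≤ B → ∀ (f₀ f₁ : ℤ × ℤ) (F : Finset (ℤ × ℤ)), Big (insert f₀ (insert f₁ F)) z →
    c * Real.log N * SS (insert f₀ (insert f₁ F)) B ≤ ∏ p ∈ P1 N z ε, (1 - gg f₀ (insert f₁ F) f₁ N ε p) := by
  obtain ⟨c, hc, N₀, hN₀⟩ := mert z hz ε hε hε1
  refine ⟨c, hc, N₀ + 2, ?_⟩
  intro N hN B hNB f₀ f₁ F hBig
  have h1 := hN₀ N (by omega)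
  have hlN : 0 < Real.log N := Real.log_pos (by exact_mod_cast (by omega : 1 < N))
  set G := insert f₀ (insert f₁ F) with hG
  have h2 := SS_le G B (P1 N z ε) (fun p hp => by
    obtain ⟨⟨a1, a2⟩, a3, a4⟩ := mem_P1.1 hp
    exact ⟨a3, by omega⟩)
  have h3 : ∏ p ∈ P1 N z ε, (1 - ((rts G p).card : ℝ) / p) =
      (∏ p ∈ P1 N z ε, (1 - 1 / (p : ℝ))) * ∏ p ∈ P1 N z ε, (1 - gg f₀ (insert f₁ F) f₁ N ε p) := by
    rw [← prod_mul_distrib]
    apply prod_congr rfl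
    intro p hp
    obtain ⟨⟨a1, a2⟩, a3, a4⟩ := mem_P1.1 hp
    have h4 := card_clF (f := f₀) (G := insert f₁ F) a3 (hBig p a3 a1 f₀ (mem_insert_self _ _))
    have hp2 : (2 : ℝ) ≤ p := by exact_mod_cast a3.two_le
    have h5 : (p : ℝ) - 1 ≠ 0 := by linarith
    have h6 : (p : ℝ) ≠ 0 := by linarith
    unfold gg cl
    rw [if_pos a4]
    have h7 : ((rts G p).card : ℝ) = ((clF f₀ (insert f₁ F) p).card : ℝ) + 1 := by
      rw [hG, ← h4]
      push_cast
      ring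
    rw [h7]
    field_simp
    ring
  have h8 : 0 ≤ ∏ p ∈ P1 N z ε, (1 - gg f₀ (insert f₁ F) f₁ N ε p) := by
    apply prod_nonneg
    intro p hp
    obtain ⟨⟨a1, a2⟩, a3, a4⟩ := mem_P1.1 hp
    have h4 := card_clF (f := f₀) (G := insert f₁ F) a3 (hBig p a3 a1 f₀ (mem_insert_self _ _))
    have hp2 : (2 : ℝ) ≤ p := by exact_mod_cast a3.two_le
    have h9 := (rts_factor G a3).1
    have h7 : ((rts G p).card : ℝ) = ((clF f₀ (insert f₁ F) p).card : ℝ) + 1 := by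
      rw [hG, ← h4]
      push_cast
      ring
    rw [sub_nonneg, div_le_one (by linarith), h7] at h9
    unfold gg cl
    rw [if_pos a4, sub_nonneg, div_le_one (by linarith)]
    linarith
  calc c * Real.log N * SS G B ≤ c * Real.log N * ((∏ p ∈ P1 N z ε, (1 - 1 / (p : ℝ))) *
        ∏ p ∈ P1 N z ε, (1 - gg f₀ (insert f₁ F) f₁ N ε p)) := by
        rw [← h3]
        exact mul_le_mul_of_nonneg_left h2 (by positivity)
    _ = (c * Real.log N * ∏ p ∈ P1 N z ε, (1 - 1 / (p : ℝ))) *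
        ∏ p ∈ P1 N z ε, (1 - gg f₀ (insert f₁ F) f₁ N ε p) := by ring
    _ ≤ 1 * ∏ p ∈ P1 N z ε, (1 - gg f₀ (insert f₁ F) f₁ N ε p) := mul_le_mul_of_nonneg_right h1 h8
    _ = _ := one_mul _

theorem mainterm2 {κ : ℕ} {ε c₁ φ θ K B L V T₁ T₂ lb η A0 M : ℝ} (hε : 0 < ε) (hc₁ : 0 < c₁) (hφ : 0 < φ)
    (hθ : 0 < θ) (hA0 : 0 < A0) (hB : 0 < B) (hL : 0 < L) (hK : K = 1000 / 998 * A0)
    (hM : M = ε * c₁ / φ * (5 / 10000 * θ * K)) (hV : c₁ / L ^ κ ≤ V)
    (hbr : 5 / 10000 * θ * K * B / L ≤ T₁ * (K * lb - η) - 1 / 2 * (T₂ * (K + η))) :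
    M * (B / L ^ (κ + 1)) ≤ ε / φ * V * (5 / 10000 * θ * K * B / L) ∧
    ε / φ * V * (5 / 10000 * θ * K * B / L) ≤ ε * (T₁ / φ * V) * (A0 * (1000 / 998 * lb) - η) -
      1 / 2 * (ε * (T₂ / φ * V) * (K + η)) := by
  have hK0 : 0 < K := by rw [hK]; positivity
  have hV0 : 0 < V := lt_of_lt_of_le (by positivity) hV
  have e1 : ε * (T₁ / φ * V) * (A0 * (1000 / 998 * lb) - η) -
      1 / 2 * (ε * (T₂ / φ * V) * (K + η)) =
      ε / φ * V * (T₁ * (K * lb - η) - 1 / 2 * (T₂ * (K + η))) := by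
    rw [hK]
    ring
  rw [e1]
  have h1 : ε / φ * (c₁ / L ^ κ) ≤ ε / φ * V := mul_le_mul_of_nonneg_left hV (by positivity)
  constructor
  · calc M * (B / L ^ (κ + 1)) = ε / φ * (c₁ / L ^ κ) * (5 / 10000 * θ * K * B / L) := by
          rw [hM, pow_succ]
          field_simp
      _ ≤ _ := mul_le_mul_of_nonneg_right h1 (by positivity)
  · exact mul_le_mul_of_nonneg_left hbr (by positivity)

theorem concl2 {κ : ℕ} {M B L x1 x2 y1 y2 y3 G S Th X : ℝ} (hX : M * (B / L ^ (κ + 1)) ≤ X)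
    (hmain : X ≤ x1 - 1 / 2 * x2) (hlow : x1 - y1 ≤ G + S + 1 / 2 * Th)
    (hth : Th ≤ x2 + y2) (h1 : y1 ≤ M / 5 * (B / L ^ (κ + 1))) (h2 : y2 ≤ M / 10 * (B / L ^ (κ + 1)))
    (hS : S ≤ y3) (h3 : y3 ≤ M / 4 * (B / L ^ (κ + 1))) : X / 2 ≤ G := by
  linarith

theorem serterm {ε φ V Y L Bt c S : ℝ} (hε : 0 < ε) (hφ : 0 < φ) (hY : 0 < Y) (hL : 0 < L) (hB : 0 < Bt)
    (h : c * L * S ≤ V) : ε * c / φ * Y * (Bt * S) ≤ ε / φ * V * (Y * Bt / L) := by
  calc ε * c / φ * Y * (Bt * S) = ε / φ * (c * L * S) * (Y * Bt / L) := by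
        field_simp
    _ ≤ _ := mul_le_mul_of_nonneg_right (mul_le_mul_of_nonneg_left h (by positivity)) (by positivity)

end Pool.Agent.H76.CL
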