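import Pool.Agent.H76.CL.Comb
import Pool.Agent.H76.CL.Ser

/-!
# Chen's theorem for systems of linear forms, uniformly in the constant terms
-/

set_option autoImplicit false

namespace Pool.Agent.H76.CL

open Finset Filter Pool.Agent.W23.DC Pool.Agent.Y660.RP Pool.Agent.Y843.CH Pool.Agent.H76.CH

theorem totient_mul_sub {a m : ℕ} (ha : 0 < a) (hm : 0 < m) (h : ∀ p : ℕ, p.Prime → p ∣ a → p ∣ m) :
    Nat.totient (a * m) = a * Nat.totient m := by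
  have h1 := Nat.totient_mul_prod_primeFactors (a * m)
  have h2 := Nat.totient_mul_prod_primeFactors m
  have h3 : (a * m).primeFactors = m.primeFactors := by
    rw [Nat.primeFactors_mul ha.ne' hm.ne', Finset.union_eq_right]
    intro p hp
    have hp' := Nat.prime_of_mem_primeFactors hp
    exact Nat.mem_primeFactors.2 ⟨hp', h p hp' (Nat.dvd_of_mem_primeFactors hp), hm.ne'⟩
  rw [h3] at h1
  have hP : 0 < ∏ p ∈ m.primeFactors, p := prod_pos fun p hp => (Nat.prime_of_mem_primeFactors hp).pos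
  apply Nat.eq_of_mul_eq_mul_right hP
  rw [h1, mul_assoc a, ← h2]
  ring

/-- the class of the values of a form -/
theorem exists_cls {f : ℤ × ℤ} (hf : f.1 ≠ 0) {m₀ z K : ℕ} (hm₀ : 0 < m₀) (hK : |f.1| ≤ K) (hKz : K ≤ z)
    (hm₀p : ∀ p : ℕ, p.Prime → p ∣ m₀ → p ≤ z) {r : ℕ} (hr : ∀ p : ℕ, p.Prime → p ≤ z → ¬ (p : ℤ) ∣ val f r) :
    ∃ c : ℕ, c.Coprime (f.1.natAbs * m₀) ∧ ((f.1.natAbs * m₀ : ℕ) : ℤ) ∣ (c : ℤ) - val f r ∧
      ∀ p : ℕ, p.Prime → z < p → ¬ p ∣ f.1.natAbs * m₀ := by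
  have ha : 0 < f.1.natAbs := Int.natAbs_pos.2 hf
  have hpos : 0 < f.1.natAbs * m₀ := Nat.mul_pos ha hm₀
  have hsm : ∀ p : ℕ, p.Prime → p ∣ f.1.natAbs * m₀ → p ≤ z := by
    intro p hp hd
    rcases (hp.dvd_mul).1 hd with h | h
    · have h1 := Nat.le_of_dvd ha h
      have h2 : (f.1.natAbs : ℤ) ≤ K := by rw [Int.natCast_natAbs]; exact hK
      omega
    · exact hm₀p p hp h
  obtain ⟨c, -, hc⟩ := exists_class _ hpos (-(val f r))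
  have hc' : ((f.1.natAbs * m₀ : ℕ) : ℤ) ∣ (c : ℤ) - val f r := by simpa [sub_eq_add_neg] using hc
  refine ⟨c, ?_, hc', ?_⟩
  · apply Nat.coprime_of_dvd
    intro p hp hpc hpM
    apply hr p hp (hsm p hp hpM)
    have h1 : (p : ℤ) ∣ (c : ℤ) := by exact_mod_cast hpc
    have h2 : (p : ℤ) ∣ ((f.1.natAbs * m₀ : ℕ) : ℤ) := by exact_mod_cast hpM
    have := dvd_sub h1 (h2.trans hc')
    rwa [sub_sub_cancel] at this
  · intro p hp hz hd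
    have := hsm p hp hd
    omega

/-- the argument `n` of the value `w` -/
theorem nu_spec {f : ℤ × ℤ} (hf : f.1 ≠ 0) {m₀ c r w A B A' B' : ℕ}
    (hc : ((f.1.natAbs * m₀ : ℕ) : ℤ) ∣ (c : ℤ) - val f r) (hw : w ≡ c [MOD f.1.natAbs * m₀])
    (hend : ∀ n : ℤ, (A' : ℤ) < val f n → val f n ≤ B' → A < n ∧ n ≤ B) (hw1 : A' < w) (hw2 : w ≤ B') :
    (((w : ℤ) - f.2) / f.1).toNat ∈ Ioc A B ∧ (w : ℤ) = val f ((((w : ℤ) - f.2) / f.1).toNat : ℕ) ∧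
      (m₀ : ℤ) ∣ ((((w : ℤ) - f.2) / f.1).toNat : ℕ) - (r : ℤ) := by
  have h1 : ((f.1.natAbs * m₀ : ℕ) : ℤ) ∣ (c : ℤ) - w := Nat.modEq_iff_dvd.1 hw
  have h2 := dvd_sub hc h1
  have e : (c : ℤ) - val f r - ((c : ℤ) - w) = w - val f r := by ring
  rw [e] at h2
  have h3 : f.1 * (m₀ : ℤ) ∣ w - val f r := by
    push_cast at h2
    rw [← Int.natAbs_dvd]
    rw [Int.natAbs_mul]
    push_cast
    simpa using h2
  obtain ⟨k, hk⟩ := h3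
  have hn : ((w : ℤ) - f.2) / f.1 = r + m₀ * k := by
    have : (w : ℤ) - f.2 = f.1 * (r + m₀ * k) := by
      unfold val at hk
      linarith
    rw [this]
    exact Int.mul_ediv_cancel_left _ hf
  have hv : (w : ℤ) = val f (r + m₀ * k) := by
    unfold val at hk ⊢
    linarith
  have h5 := hend (r + m₀ * k) (by rw [← hv]; exact_mod_cast hw1) (by rw [← hv]; exact_mod_cast hw2)
  have h6 : (0 : ℤ) ≤ r + m₀ * k := by
    have : (0 : ℤ) ≤ A := Int.natCast_nonneg _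
    linarith [h5.1]
  have h7 : ((((w : ℤ) - f.2) / f.1).toNat : ℤ) = r + m₀ * k := by
    rw [hn, Int.toNat_of_nonneg h6]
  refine ⟨?_, ?_, ?_⟩
  · rw [mem_Ioc]
    constructor
    · have : (A : ℤ) < ((((w : ℤ) - f.2) / f.1).toNat : ℤ) := by rw [h7]; exact h5.1
      exact_mod_cast this
    · have : ((((w : ℤ) - f.2) / f.1).toNat : ℤ) ≤ B := by rw [h7]; exact h5.2
      exact_mod_cast this
  · rw [h7]
    exact hv
  · rw [h7]
    exact ⟨k, by ring⟩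

theorem hX2 {a b D α Bt s : ℝ} (hs0 : 0 < s) (ha : 0 ≤ a) (hab : a ≤ b) (hα : 1 ≤ α) (hbB : b ≤ Bt)
    (hD : b - a = α * D) : ((1 + s) * b - a / (1 + s)) / α ≤ D + 4 * s * Bt := by
  have h1 : a * (1 - s) ≤ a / (1 + s) := by
    rw [le_div_iff₀ (by linarith)]
    nlinarith [mul_nonneg ha (sq_nonneg s)]
  have hα0 : 0 < α := by linarith
  rw [div_le_iff₀ hα0]
  have h2 : s * b ≤ s * Bt := mul_le_mul_of_nonneg_left hbB hs0.le
  have h3 : s * a ≤ s * Bt := mul_le_mul_of_nonneg_left (hab.trans hbB) hs0.le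
  have h4 : s * Bt ≤ α * (s * Bt) := by
    have : 0 ≤ s * Bt := mul_nonneg hs0.le (by linarith)
    nlinarith
  nlinarith

open Classical in
/-- the good integers, with bounds in terms of `B` -/
noncomputable def GoodB (f₀ f₁ : ℤ × ℤ) (F : Finset (ℤ × ℤ)) (A B : ℕ) (ε : ℝ) : Finset ℕ :=
  (Ioc A B).filter (fun n => (val f₀ n).toNat.Prime ∧ (val f₁ n).toNat.primeFactorsList.length ≤ 2 ∧
    (∀ p : ℕ, p.Prime → (p : ℤ) ∣ val f₁ n → (B : ℝ) ^ (1 / 8 : ℝ) ≤ p) ∧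
    ∀ f ∈ F, ∀ p : ℕ, p.Prime → (p : ℤ) ∣ val f n → (B : ℝ) ^ ε ≤ p)

theorem sqr {N : ℝ} (h : 16 ≤ N) : (N + 1) ^ 2 ≤ 2 * N ^ 2 := by nlinarith

theorem sqr3 {N : ℝ} (h : 16 ≤ N) : (N + 1) ^ 2 ≤ 3 * N ^ 2 := by nlinarith

theorem sqr4 {N : ℝ} (h : 16 ≤ N) : (1 + 1 / 10000) * (N + 1) ^ 2 ≤ 4 * N ^ 2 := by nlinarith

theorem kb {K B N : ℕ} (h1 : 2 * K * B < (N + 1) ^ 2) (h2 : 16 ≤ N) : K * B ≤ N ^ 2 := by
  have h3 : (N + 1) ^ 2 ≤ 2 * N ^ 2 := by nlinarith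
  have e : 2 * K * B = 2 * (K * B) := by ring
  omega

theorem tb {K θ R B : ℝ} (hK : 1 ≤ K) (h1 : 16 * K ≤ θ * R) (h2 : (θ * R) ^ 2 ≤ θ ^ 2 * B) : 8 * K ≤ θ ^ 2 * B := by
  have h3 : (16 * K) ^ 2 ≤ (θ * R) ^ 2 := pow_le_pow_left₀ (by positivity) h1 2
  nlinarith

open Classical in
theorem chen_N (κ K : ℕ) (hκ : 1 ≤ κ) (hK1 : 1 ≤ K) (θ : ℝ) (hθ : 0 < θ) (hθ1 : θ ≤ 1) :
    ∃ ε c : ℝ, 0 < ε ∧ ε ≤ 1 / 8 ∧ 0 < c ∧ ∃ B₀ : ℕ, ∀ B : ℕ, B₀ ≤ B → ∀ A : ℕ, (A : ℝ) + θ * B ≤ B →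
      ∀ (f₀ f₁ : ℤ × ℤ) (F : Finset (ℤ × ℤ)), F.card + 1 ≤ κ →
      (∀ f ∈ insert f₀ (insert f₁ F), f.1 ≠ 0 ∧ |f.1| ≤ K) → |f₀.2| ≤ K * B → |f₁.2| ≤ K * B →
      f₀.1 * f₁.2 - f₁.1 * f₀.2 ≠ 0 →
      (∀ n : ℤ, A < n → n ≤ B → θ * B ≤ (val f₀ n : ℝ) ∧ θ * B ≤ (val f₁ n : ℝ)) →
      Adm (insert f₀ (insert f₁ F)) →
      c * B / Real.log B ^ (κ + 1) ≤ ((Good f₀ f₁ F (Nat.sqrt (2 * K * B)) A B ε).card : ℝ) ∧
      c * B * SS (insert f₀ (insert f₁ F)) B ≤ ((Good f₀ f₁ F (Nat.sqrt (2 * K * B)) A B ε).card : ℝ) := by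
  obtain ⟨A0, C0, hA0, hcore⟩ := Pool.Agent.Y261.CH.core κ hκ
  have hKr : (1 : ℝ) ≤ K := by exact_mod_cast hK1
  set z : ℕ := max C0 (K + 2 * κ + 4) with hz
  have hzC : C0 ≤ z := le_max_left _ _
  have hzK : K + 2 * κ + 4 ≤ z := le_max_right _ _
  set m₀ := primorial z with hm₀
  have hm₀pos : 0 < m₀ := primorial_pos z
  have hm₀p : ∀ p : ℕ, p.Prime → p ∣ m₀ → p ≤ z := fun p hp hd => hp.dvd_primorial_iff.1 hd
  have hm₀p' : ∀ p : ℕ, p.Prime → p ≤ z → p ∣ m₀ := fun p hp hd => hp.dvd_primorial_iff.2 hd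
  set K' : ℝ := 1000 / 998 * A0 with hK'
  have hK0 : 0 < K' := by positivity
  set η : ℝ := K' / 2000 with hη
  have hη0 : 0 < η := by positivity
  obtain ⟨ε, hε0, hε8, N₁, hN₁2, hN₁⟩ := hcore z hzC η hη0
  set θ' : ℝ := θ / (2 * K) with hθ'
  have hθ'0 : 0 < θ' := by positivity
  have hθ'1 : θ' ≤ 1 := by
    rw [hθ', div_le_one (by positivity)]
    linarith
  set s : ℝ := θ' / 10000 with hs
  have hs0 : 0 < s := by positivity
  have hs1 : s ≤ 1 / 10000 := by rw [hs]; linarith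
  have hpB : ∀ a : ℕ, 0 < (a + 1) * m₀ := fun a => Nat.mul_pos (Nat.succ_pos a) hm₀pos
  choose N₂ hN₂ using fun a : ℕ => partB2 ((a + 1) * m₀) κ (κ + 3) z (hpB a) hκ s s hs0 hs0
  choose N₃ hN₃ using fun a : ℕ => partA2 ((a + 1) * m₀) κ (κ + 3) z (⌈4 * (K : ℝ) / θ⌉₊ + 1) (hpB a) hκ (by omega)
  obtain ⟨N₄, hN₄⟩ := T_low2 s (θ / (4 * K)) hs0 (by positivity)
  obtain ⟨c₁, hc₁p, hV⟩ := V_low2 κ z (by omega)
  obtain ⟨N₅, hN₅⟩ := Pool.Agent.Y73.CH.wt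
  obtain ⟨c₂, hc₂p, N₇, hN₇⟩ := V_ser z (by omega) ε hε0 (by linarith)
  have hφ : (0 : ℝ) < (Nat.totient m₀ : ℝ) := by exact_mod_cast Nat.totient_pos.2 hm₀pos
  set M : ℝ := ε * c₁ / (Nat.totient m₀ : ℝ) * (5 / 10000 * θ' * K') with hM
  have hM0 : 0 < M := by positivity
  -- conditions on `N`
  have ev1 : ∀ᶠ N : ℕ in atTop, 10 / M + 1 ≤ Real.log N :=
    (Real.tendsto_log_atTop.comp tendsto_natCast_atTop_atTop).eventually_ge_atTop _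
  have ev2 := ev_sq s hs0
  have ev3 := ev_log_pow (κ + 1) M hM0
  have ev4 := ev_lt (667 / 1000 + 1 / 4) 2 (by norm_num) 1
  obtain ⟨N₆, hN₆⟩ := eventually_atTop.1 (ev1.and (ev2.and (ev3.and ev4)))
  set S₂ : ℕ := ∑ a ∈ range K, N₂ a with hS₂
  set S₃ : ℕ := ∑ a ∈ range K, N₃ a with hS₃
  set R : ℕ := ⌈(16 * K + S₃ + N₄ + 16 : ℝ) / θ⌉₊ with hR
  set N₀ : ℕ := N₁ + S₂ + S₃ + N₄ + N₅ + N₆ + z + 4 * K + 16 + R + N₇ with hN₀
  set M₂ : ℝ := ε * c₂ / (Nat.totient m₀ : ℝ) * (5 / 10000 * θ' * K') with hM₂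
  have hM₂0 : 0 < M₂ := by positivity
  refine ⟨ε, min M M₂ / 2, hε0, hε8, by positivity, N₀ ^ 2,
    fun B hB A hAB f₀ f₁ F hF hco hb₀ hb₁ hD hpos hAdm => ?_⟩
  set N := Nat.sqrt (2 * K * B) with hN
  have hNN : N₀ ≤ N := by
    rw [hN, Nat.le_sqrt']
    calc N₀ ^ 2 ≤ B := hB
      _ ≤ 2 * K * B := Nat.le_mul_of_pos_left _ (by omega)
  have hN2B : N ^ 2 ≤ 2 * K * B := Nat.sqrt_le' _
  have hBN : 2 * K * B < (N + 1) ^ 2 := Nat.lt_succ_sqrt' _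
  obtain ⟨q1, q2, q3, q4⟩ := hN₆ N (by omega)
  have hN16 : 16 ≤ N := by omega
  have hN2 : 2 ≤ N := by omega
  have hNr : (16 : ℝ) ≤ N := by exact_mod_cast hN16
  have hN0pos : 1 ≤ N₀ := by omega
  have hB1 : 1 ≤ B := le_trans (Nat.one_le_pow _ _ hN0pos) hB
  have hBr : (1 : ℝ) ≤ B := by exact_mod_cast hB1
  have hB0 : (0 : ℝ) < B := by linarith
  set Bt : ℝ := 2 * K * B with hBt
  have hBt0 : 0 < Bt := by positivity
  have hN2Br : (N : ℝ) ^ 2 ≤ Bt := by rw [hBt]; exact_mod_cast hN2B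
  have hBNr : Bt ≤ ((N : ℝ) + 1) ^ 2 := by rw [hBt]; exact_mod_cast hBN.le
  have hθB : θ * B = θ' * Bt := by
    rw [hθ', hBt]
    field_simp
  -- lower bounds for `θ B`
  have hR1 : (16 * K + S₃ + N₄ + 16 : ℝ) ≤ θ * R := by
    have := Nat.le_ceil ((16 * K + S₃ + N₄ + 16 : ℝ) / θ)
    rw [← hR, div_le_iff₀ hθ] at this
    linarith
  have hRB : (R : ℝ) ^ 2 ≤ B := by
    have h1 : R ^ 2 ≤ B := (Nat.pow_le_pow_left (by omega) 2).trans hB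
    exact_mod_cast h1
  have hR16 : (16 : ℝ) ≤ R := by
    have h1 : (0 : ℝ) ≤ S₃ := Nat.cast_nonneg _
    have h2 : (0 : ℝ) ≤ N₄ := Nat.cast_nonneg _
    have h3 : θ * R ≤ 1 * R := mul_le_mul_of_nonneg_right hθ1 (Nat.cast_nonneg _)
    linarith
  have hθB1 : 16 * (16 * K + S₃ + N₄ + 16 : ℝ) ≤ θ * B := by
    have h1 : (0 : ℝ) ≤ S₃ := Nat.cast_nonneg _
    have h2 : (0 : ℝ) ≤ N₄ := Nat.cast_nonneg _
    calc 16 * (16 * K + S₃ + N₄ + 16 : ℝ) ≤ R * (θ * R) := mul_le_mul hR16 hR1 (by positivity) (by positivity)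
      _ = θ * (R : ℝ) ^ 2 := by ring
      _ ≤ θ * B := mul_le_mul_of_nonneg_left hRB hθ.le
  have hS₃0 : (0 : ℝ) ≤ S₃ := Nat.cast_nonneg _
  have hN₄0 : (0 : ℝ) ≤ N₄ := Nat.cast_nonneg _
  have hθN : (N : ℝ) ≤ θ / 2 * B := by
    have h1 : (N : ℝ) ^ 2 ≤ (θ / 2 * B) ^ 2 := by
      refine hN2Br.trans ?_
      have h2 : 16 * (K : ℝ) ≤ θ * R := by linarith
      have h4 : (θ * R) ^ 2 ≤ θ ^ 2 * B := by
        rw [mul_pow]
        exact mul_le_mul_of_nonneg_left hRB (by positivity)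
      have h5 : 8 * (K : ℝ) ≤ θ ^ 2 * B := tb hKr h2 h4
      calc Bt = 1 / 4 * (8 * K) * B := by rw [hBt]; ring
        _ ≤ 1 / 4 * (θ ^ 2 * B) * B := by gcongr
        _ = (θ / 2 * B) ^ 2 := by ring
    exact (sq_le_sq₀ (by positivity) (by positivity)).1 h1
  have hAB' : A < B := by
    have h1 : (0 : ℝ) < θ * B := by positivity
    have : (A : ℝ) < B := by linarith
    exact_mod_cast this
  have hABr : (A : ℝ) ≤ B := by exact_mod_cast hAB'.le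
  have hNB : (N : ℝ) ≤ B := by
    have : θ / 2 * B ≤ 1 * B := mul_le_mul_of_nonneg_right (by linarith) hB0.le
    linarith
  set L := Real.log N with hL
  have hL1 : 1 ≤ L := by
    have : 0 < 10 / M := by positivity
    linarith
  have hL0 : 0 < L := by linarith
  have hLBB : L ≤ Real.log B := Real.log_le_log (by linarith) hNB
  have hlogle : ∀ x : ℝ, 0 < x → x ≤ Bt → Real.log x ≤ (2 + s) * L := by
    intro x hx0 hx
    rw [hL, ← Real.log_rpow (by linarith)]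
    exact Real.log_le_log hx0 ((hx.trans hBNr).trans q2)
  obtain ⟨hzN, hcoreN⟩ := hN₁ N (by omega)
  -- the forms
  have hf₀ := hco f₀ (mem_insert_self _ _)
  have hf₁ := hco f₁ (mem_insert_of_mem (mem_insert_self _ _))
  have hBig : Big (insert f₀ (insert f₁ F)) z := by
    intro p hp hz' g hg hd
    obtain ⟨h1, h2⟩ := hco g hg
    have h3 := Int.le_of_dvd (abs_pos.2 h1) ((dvd_abs _ _).2 hd)
    have h4 : (p : ℤ) ≤ K := h3.trans h2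
    have h5 : p ≤ K := by exact_mod_cast h4
    omega
  have hBig' : Big (insert f₁ (insert f₀ F)) z := by rwa [Finset.insert_comm]
  have hc₀ : (insert f₁ F).card ≤ κ := (card_insert_le _ _).trans hF
  have hc₁ : (insert f₀ F).card ≤ κ := (card_insert_le _ _).trans hF
  have hposi : ∀ f ∈ ({f₀, f₁} : Finset (ℤ × ℤ)), ∀ n : ℤ, A < n → n ≤ B → ⌈θ * B⌉ ≤ val f n := by
    intro f hf n h1 h2
    rw [mem_insert, mem_singleton] at hf
    rcases hf with rfl | rfl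
    · exact Int.ceil_le.2 (hpos n h1 h2).1
    · exact Int.ceil_le.2 (hpos n h1 h2).2
  have hceil : (θ * B : ℝ) ≤ (⌈θ * B⌉ : ℝ) := Int.le_ceil _
  have hKX : (K : ℤ) + 1 ≤ ⌈θ * B⌉ := by
    have : ((K : ℝ) + 1) ≤ (⌈θ * B⌉ : ℝ) := by linarith
    exact_mod_cast this
  obtain ⟨A₀, B₀, u1, u2, u3, u4, u5⟩ := endpoints hf₀.1 hf₀.2 hAB' (hposi f₀ (by simp)) hKX
  obtain ⟨A₁, B₁, v1, v2, v3, v4, v5⟩ := endpoints hf₁.1 hf₁.2 hAB' (hposi f₁ (by simp)) hKX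
  have hAlow : ∀ A' : ℕ, ⌈θ * B⌉ - K - 1 ≤ (A' : ℤ) → θ / 2 * B ≤ A' := by
    intro A' h
    have h1 : ((⌈θ * B⌉ : ℝ)) - K - 1 ≤ A' := by exact_mod_cast h
    linarith
  have hA₀ := hAlow A₀ u2
  have hA₁ := hAlow A₁ v2
  have hBup : ∀ B' : ℕ, ∀ b : ℤ, |b| ≤ K * B → (B' : ℤ) ≤ K * B + |b| → (B' : ℝ) ≤ Bt := by
    intro B' b h1 h2
    have h3 : (B' : ℤ) ≤ 2 * K * B := by linarith
    rw [hBt]
    exact_mod_cast h3
  have hB₀t := hBup B₀ f₀.2 hb₀ u3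
  have hB₁t := hBup B₁ f₁.2 hb₁ v3
  have hAB₀ : A₀ ≤ B₀ := by
    have h1 : (0 : ℤ) ≤ |f₀.1| * ((B : ℤ) - A) := mul_nonneg (abs_nonneg _) (by omega)
    omega
  have hAB₁ : A₁ ≤ B₁ := by
    have h1 : (0 : ℤ) ≤ |f₁.1| * ((B : ℤ) - A) := mul_nonneg (abs_nonneg _) (by omega)
    omega
  have hAB₀r : (A₀ : ℝ) ≤ B₀ := by exact_mod_cast hAB₀
  have hAB₁r : (A₁ : ℝ) ≤ B₁ := by exact_mod_cast hAB₁
  have hNA₀ : N ≤ A₀ := by
    have : (N : ℝ) ≤ A₀ := hθN.trans hA₀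
    exact_mod_cast this
  -- the coefficients
  obtain ⟨α₀, hα₀⟩ : ∃ α₀ : ℕ, f₀.1.natAbs = α₀ + 1 :=
    ⟨f₀.1.natAbs - 1, by have := Int.natAbs_pos.2 hf₀.1; omega⟩
  obtain ⟨α₁, hα₁⟩ : ∃ α₁ : ℕ, f₁.1.natAbs = α₁ + 1 :=
    ⟨f₁.1.natAbs - 1, by have := Int.natAbs_pos.2 hf₁.1; omega⟩
  have hα₀K : α₀ < K := by
    have h2 : (f₀.1.natAbs : ℤ) ≤ K := by rw [Int.natCast_natAbs]; exact hf₀.2
    omega
  have hα₁K : α₁ < K := by
    have h2 : (f₁.1.natAbs : ℤ) ≤ K := by rw [Int.natCast_natAbs]; exact hf₁.2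
    omega
  have hS₃' : N₃ α₀ ≤ S₃ := single_le_sum (f := N₃) (fun _ _ => Nat.zero_le _) (mem_range.2 hα₀K)
  have hS₂' : N₂ α₁ ≤ S₂ := single_le_sum (f := N₂) (fun _ _ => Nat.zero_le _) (mem_range.2 hα₁K)
  have habs₀ : (|f₀.1| : ℝ) = (α₀ : ℝ) + 1 := by
    have : ((f₀.1.natAbs : ℕ) : ℤ) = |f₀.1| := Int.natCast_natAbs _
    rw [hα₀] at this
    exact_mod_cast this.symm
  have habs₁ : (|f₁.1| : ℝ) = (α₁ : ℝ) + 1 := by
    have : ((f₁.1.natAbs : ℕ) : ℤ) = |f₁.1| := Int.natCast_natAbs _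
    rw [hα₁] at this
    exact_mod_cast this.symm
  have hD₀ : (B₀ : ℝ) - A₀ = ((α₀ : ℝ) + 1) * (B - A) := by
    rw [← habs₀]
    have : ((B₀ : ℤ) : ℝ) = (((A₀ : ℤ) + |f₀.1| * ((B : ℤ) - A) : ℤ) : ℝ) := by rw [u1]
    push_cast at this
    linarith
  have hD₁ : (B₁ : ℝ) - A₁ = ((α₁ : ℝ) + 1) * (B - A) := by
    rw [← habs₁]
    have : ((B₁ : ℤ) : ℝ) = (((A₁ : ℤ) + |f₁.1| * ((B : ℤ) - A) : ℤ) : ℝ) := by rw [v1]
    push_cast at this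
    linarith
  -- the classes
  obtain ⟨r, hr⟩ := crt hAdm z
  obtain ⟨c₀, w1, w2, w3⟩ := exists_cls hf₀.1 hm₀pos hf₀.2 (by omega : K ≤ z) hm₀p (hr f₀ (mem_insert_self _ _))
  obtain ⟨d₁, x1, x2, x3⟩ := exists_cls hf₁.1 hm₀pos hf₁.2 (by omega : K ≤ z) hm₀p
    (hr f₁ (mem_insert_of_mem (mem_insert_self _ _)))
  set ν : ℕ → ℕ := fun w => (((w : ℤ) - f₀.2) / f₀.1).toNat with hν
  have hνs : ∀ w ∈ Ioc A₀ B₀, w ≡ c₀ [MOD f₀.1.natAbs * m₀] → ν w ∈ Ioc A B ∧ (w : ℤ) = val f₀ (ν w) ∧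
      (m₀ : ℤ) ∣ (ν w : ℤ) - r := by
    intro w hw hwc
    rw [mem_Ioc] at hw
    exact nu_spec hf₀.1 w2 hwc u5 hw.1 hw.2
  have hcomb := comb (f₀ := f₀) (f₁ := f₁) (F := F) (ν := ν) (N := N) (z := z) (A := A) (B := B) (A' := A₀)
    (B' := B₀) (m₀ := f₀.1.natAbs * m₀) (a₀ := c₀) (ε := ε) hN2 (by linarith) hNA₀ hBig
    (by
      intro w hw hwc
      obtain ⟨h1, h2, h3⟩ := hνs w hw hwc
      refine ⟨h1, h2, fun f hf p hp hpz hd => ?_⟩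
      apply hr f hf p hp hpz
      have h4 : (p : ℤ) ∣ (ν w : ℤ) - r := dvd_trans (by exact_mod_cast hm₀p' p hp hpz) h3
      exact (dvd_val_iff h4).1 hd) hzN (hN₅ N (by omega))
    (by
      intro n hn
      rw [mem_Ioc] at hn
      have hn1 : (A : ℤ) < n := by exact_mod_cast hn.1
      have hn2 : (n : ℤ) ≤ B := by exact_mod_cast hn.2
      obtain ⟨h1, h2⟩ := v4 n hn1 hn2
      refine ⟨by omega, h2.trans ?_⟩
      have h3 : (B₁ : ℝ) ≤ 3 * (N : ℝ) ^ 2 := by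
        have h4 : ((N : ℝ) + 1) ^ 2 ≤ 3 * (N : ℝ) ^ 2 := sqr3 hNr
        linarith
      exact_mod_cast h3)
  -- the sets
  obtain ⟨E₁, hE₁, hE₁'⟩ := hN₃ α₀ N A₀ B₀
    (by
      have h1 : (N₃ α₀ : ℝ) ≤ S₃ := by exact_mod_cast hS₃'
      have h2 : (N₃ α₀ : ℝ) ≤ B₀ := by linarith
      exact_mod_cast h2) hAB₀
    (by
      have h1 := Nat.le_ceil (4 * (K : ℝ) / θ)
      have h2 : (N : ℝ) ^ 2 ≤ ((⌈4 * (K : ℝ) / θ⌉₊ + 1 : ℕ) : ℝ) * B₀ := by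
        calc (N : ℝ) ^ 2 ≤ Bt := hN2Br
          _ = 4 * (K : ℝ) / θ * (θ / 2 * B) := by
              rw [hBt]
              field_simp
              ring
          _ ≤ ((⌈4 * (K : ℝ) / θ⌉₊ + 1 : ℕ) : ℝ) * B₀ := by
              apply mul_le_mul _ (hA₀.trans hAB₀r) (by positivity) (by positivity)
              push_cast
              linarith
      exact_mod_cast h2)
  obtain ⟨Ω₂, T₂, E₂, hT₂0, hT₂, hΩ₂, hE₂, hE₂'⟩ := hN₂ α₁ N (by omega) (A₁ : ℝ) (B₁ : ℝ)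
    (Nat.cast_nonneg _) hAB₁r
    (by
      have h1 : s * (N : ℝ) ^ 2 ≤ s * Bt := mul_le_mul_of_nonneg_left hN2Br hs0.le
      have h2 : s * Bt ≤ θ' / 2 * Bt := mul_le_mul_of_nonneg_right (by rw [hs]; linarith) hBt0.le
      have h3 : θ' / 2 * Bt = θ / 2 * B := by linarith
      linarith)
    (by
      have h1 : (1 + s) * (B₁ : ℝ) ≤ (1 + s) * Bt := mul_le_mul_of_nonneg_left hB₁t (by linarith)
      have h2 : (1 + s) * Bt ≤ (1 + 1 / 10000) * ((N : ℝ) + 1) ^ 2 :=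
        mul_le_mul (by linarith) hBNr hBt0.le (by norm_num)
      have h3 : (1 + 1 / 10000) * ((N : ℝ) + 1) ^ 2 ≤ 4 * (N : ℝ) ^ 2 := sqr4 hNr
      linarith)
  rw [← hα₀] at hE₁
  rw [← hα₁] at hE₂
  have hthree := three_le (f₀ := f₀) (f₁ := f₁) (F := F) (ν := ν) (N := N) (z := z) (A := A) (B := B) (A' := A₀)
    (B' := B₀) (M₀ := f₀.1.natAbs * m₀) (c₀ := c₀) (M₁ := f₁.1.natAbs * m₀) (c₁ := d₁) (ε := ε)
    (a := (A₁ : ℝ)) (b := (B₁ : ℝ)) hN2 hzN hNA₀ hBig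
    (by
      intro w hw hwc
      obtain ⟨h1, h2, h3⟩ := hνs w hw hwc
      refine ⟨h1, h2, ?_⟩
      have h4 : ((f₁.1.natAbs * m₀ : ℕ) : ℤ) ∣ val f₁ (ν w) - val f₁ r := by
        rw [val_sub]
        push_cast
        apply mul_dvd_mul _ h3
        rw [abs_dvd]
      have h5 := dvd_sub x2 h4
      have e : (d₁ : ℤ) - val f₁ r - (val f₁ (ν w) - val f₁ r) = d₁ - val f₁ (ν w) := by ring
      rwa [e] at h5)
    (by
      intro n hn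
      rw [mem_Ioc] at hn
      have hn1 : (A : ℤ) < n := by exact_mod_cast hn.1
      have hn2 : (n : ℤ) ≤ B := by exact_mod_cast hn.2
      obtain ⟨h1, h2⟩ := v4 n hn1 hn2
      exact ⟨by exact_mod_cast h1, by exact_mod_cast h2⟩) hf₁.1 Ω₂ hΩ₂
  set T₁ : ℝ := (((Ioc A₀ B₀).filter Nat.Prime).card : ℝ) with hT₁
  have hT₁0 : 0 ≤ T₁ := Nat.cast_nonneg _
  set V : ℝ := ∏ p ∈ P1 N z ε, (1 - gg f₀ (insert f₁ F) f₁ N ε p) with hVd
  have hDg₀ := gg_Dg (f := f₀) (g := f₁) (G := insert f₁ F) (mem_insert_self _ _) (z := z) (κ := κ) hBig hc₀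
    (N := N) (ε := ε) hzN
  have hDg₁ := gg_Dg (f := f₁) (g := f₀) (G := insert f₀ F) (mem_insert_self _ _) (z := z) (κ := κ) hBig' hc₁
    (N := N) (ε := ε) hzN
  have hV2 : ∏ p ∈ P1 N z ε, (1 - gg f₁ (insert f₀ F) f₀ N ε p) = V := by
    rw [hVd]
    apply prod_congr rfl
    intro p hp
    obtain ⟨⟨h1, h2⟩, h3, h4⟩ := mem_P1.1 hp
    rw [gg_symm hBig h3 h1 h4]
  have hVlow : c₁ / L ^ κ ≤ V := by
    apply hV N (by omega) ε
    intro p hp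
    obtain ⟨⟨h1, h2⟩, h3, h4⟩ := mem_P1.1 hp
    exact (hDg₀.1 p h3 h1).2
  have hV0 : 0 < V := lt_of_lt_of_le (by positivity) hVlow
  have hDle : (f₀.1 * f₁.2 - f₁.1 * f₀.2).natAbs ≤ N ^ 3 := by
    have hB0z : (0 : ℤ) ≤ B := Int.natCast_nonneg _
    have hK0z : (0 : ℤ) ≤ K := Int.natCast_nonneg _
    have h1 : |f₀.1 * f₁.2 - f₁.1 * f₀.2| ≤ 2 * K * (K * B) := by
      refine (abs_sub _ _).trans ?_
      rw [abs_mul, abs_mul]
      have g1 := mul_le_mul hf₀.2 hb₁ (abs_nonneg _) hK0z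
      have g2 := mul_le_mul hf₁.2 hb₀ (abs_nonneg _) hK0z
      linarith
    have h2 : (2 * K * (K * B) : ℤ) ≤ (N : ℤ) ^ 3 := by
      have g1 : K * B ≤ N ^ 2 := kb hBN hN16
      have g3 : 2 * K ≤ N := by omega
      have g4 : 2 * K * (K * B) ≤ N * N ^ 2 := Nat.mul_le_mul g3 g1
      have g5 : N * N ^ 2 = N ^ 3 := by ring
      rw [g5] at g4
      exact_mod_cast g4
    have h3 : (((f₀.1 * f₁.2 - f₁.1 * f₀.2).natAbs : ℕ) : ℤ) ≤ (N : ℤ) ^ 3 := by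
      rw [Int.natCast_natAbs]
      exact h1.trans h2
    exact_mod_cast h3
  have hD0 : (f₀.1 * f₁.2 - f₁.1 * f₀.2).natAbs ≠ 0 := Int.natAbs_ne_zero.2 hD
  have hDsym : (f₁.1 * f₀.2 - f₀.1 * f₁.2).natAbs = (f₀.1 * f₁.2 - f₁.1 * f₀.2).natAbs := by
    rw [← Int.natAbs_neg]
    congr 1
    ring
  rw [hDsym] at hDg₁
  have hM₀pos : 0 < f₀.1.natAbs * m₀ := Nat.mul_pos (by omega) hm₀pos
  have hM₁pos : 0 < f₁.1.natAbs * m₀ := Nat.mul_pos (by omega) hm₀pos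
  -- the two sieve bounds
  have hlow := (hcoreN ℕ (((Ioc A₀ B₀).filter Nat.Prime).filter (fun w => w ≡ c₀ [MOD f₀.1.natAbs * m₀]))
    (fun w => vw (cl f₀ (insert f₁ F) f₁ N ε) N z w) (gg f₀ (insert f₁ F) f₁ N ε)
    (T₁ / (Nat.totient (f₀.1.natAbs * m₀) : ℝ)) _ (by positivity) hD0 hDle hDg₀).1
  have hup := (hcoreN (ℕ × ℕ) (Ω₂.filter (fun x => x.1 * x.2 ≡ d₁ [MOD f₁.1.natAbs * m₀]))
    (fun x => vw (cl f₁ (insert f₀ F) f₀ N ε) N z (x.1 * x.2)) (gg f₁ (insert f₀ F) f₀ N ε)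
    (T₂ / (Nat.totient (f₁.1.natAbs * m₀) : ℝ)) _ (by positivity) hD0 hDle hDg₁).2
  rw [hV2, ← hL] at hup
  rw [← hVd, ← hL] at hlow
  have hLv : ∀ q ∈ Lv' z ((N : ℝ) ^ (999 / 1000 : ℝ)), 0 < q ∧ q ≤ N ∧ Squarefree q ∧ ∀ p ∈ q.primeFactors, z < p := by
    intro q hq
    unfold Lv' at hq
    rw [mem_filter, mem_Icc] at hq
    refine ⟨hq.1.1, ?_, hq.2.1, hq.2.2⟩
    have h1 := (Nat.le_floor_iff (by positivity)).1 hq.1.2
    have h2 : (N : ℝ) ^ (999 / 1000 : ℝ) ≤ N := by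
      calc (N : ℝ) ^ (999 / 1000 : ℝ) ≤ (N : ℝ) ^ (1 : ℝ) :=
            Real.rpow_le_rpow_of_exponent_le (by linarith) (by norm_num)
        _ = N := Real.rpow_one _
    exact_mod_cast h1.trans h2
  have hR1 : ∑ q ∈ Lv' z ((N : ℝ) ^ (999 / 1000 : ℝ)),
      Rr (((Ioc A₀ B₀).filter Nat.Prime).filter (fun w => w ≡ c₀ [MOD f₀.1.natAbs * m₀]))
        (fun w => vw (cl f₀ (insert f₁ F) f₁ N ε) N z w)
        (gg f₀ (insert f₁ F) f₁ N ε) (T₁ / (Nat.totient (f₀.1.natAbs * m₀) : ℝ)) q ≤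
        2 * (B₀ / Real.log B₀ ^ (κ + 3)) := by
    refine le_trans (sum_le_sum fun q hq => ?_) hE₁'
    obtain ⟨h1, h2, h3, h4⟩ := hLv q hq
    exact Rr_le ((Ioc A₀ B₀).filter Nat.Prime) (fun w => w) (mem_insert_self _ _) hBig hc₀ _ c₀ hM₀pos w1 w3 q h3 h4
      h2 T₁ (E₁ q) (hE₁ q h1)
  have hR2 : ∑ q ∈ Lv' z ((N : ℝ) ^ (999 / 1000 : ℝ)),
      Rr (Ω₂.filter (fun x => x.1 * x.2 ≡ d₁ [MOD f₁.1.natAbs * m₀]))
        (fun x => vw (cl f₁ (insert f₀ F) f₀ N ε) N z (x.1 * x.2))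
        (gg f₁ (insert f₀ F) f₀ N ε) (T₂ / (Nat.totient (f₁.1.natAbs * m₀) : ℝ)) q ≤
        (N : ℝ) ^ 2 / L ^ (κ + 3) := by
    refine le_trans (sum_le_sum fun q hq => ?_) hE₂'
    obtain ⟨h1, h2, h3, h4⟩ := hLv q hq
    exact Rr_le Ω₂ (fun x => x.1 * x.2) (mem_insert_self _ _) hBig' hc₁ _ d₁ hM₁pos x1 x3 q h3 h4
      h2 T₂ (E₂ q) (hE₂ q h1)
  have hthree' : ((Three f₀ f₁ F ν N z A₀ B₀ (f₀.1.natAbs * m₀) c₀ ε).card : ℝ) ≤
      ε * (T₂ / (Nat.totient (f₁.1.natAbs * m₀) : ℝ) * V) * (K' + η) + L * ((N : ℝ) ^ 2 / L ^ (κ + 3)) := by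
    have h1 : ((Three f₀ f₁ F ν N z A₀ B₀ (f₀.1.natAbs * m₀) c₀ ε).card : ℝ) ≤
      (((Ω₂.filter (fun x => x.1 * x.2 ≡ d₁ [MOD f₁.1.natAbs * m₀])).filter (fun x =>
        (∀ p ∈ P1 N z ε, ¬ p ∣ vw (cl f₁ (insert f₀ F) f₀ N ε) N z (x.1 * x.2)) ∧
        ∀ p ∈ pr N ε (7 / 20), ¬ p ∣ vw (cl f₁ (insert f₀ F) f₀ N ε) N z (x.1 * x.2))).card : ℝ) := by
      exact_mod_cast hthree
    refine (h1.trans (le_of_eq ?_)).trans (hup.trans ?_)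
    · congr!
    · have := mul_le_mul_of_nonneg_left hR2 hL0.le
      linarith only [this]
  have hlow' : ε * (T₁ / (Nat.totient (f₀.1.natAbs * m₀) : ℝ) * V) * (A0 * (1000 / 998 * LBc) - η) -
      L * (2 * (B₀ / Real.log B₀ ^ (κ + 3))) ≤
      ((Good f₀ f₁ F N A B ε).card : ℝ) + (Sq f₁ N A B).card +
        1 / 2 * (Three f₀ f₁ F ν N z A₀ B₀ (f₀.1.natAbs * m₀) c₀ ε).card := by
    refine le_trans ?_ hcomb
    refine le_trans ?_ hlow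
    have := mul_le_mul_of_nonneg_left hR1 hL0.le
    linarith only [this]
  -- the squares
  have hsq : ((Sq f₁ N A B).card : ℝ) ≤ 3 * (Bt / (N : ℝ) ^ (1 / 4 : ℝ)) := by
    have h1 := squares2 N B A hN16 f₁ (by
      intro p hp hpx
      have h5 : (z : ℝ) < p := by
        have h6 : (N : ℝ) ^ ε ≤ (N : ℝ) ^ (1 / 4 : ℝ) :=
          Real.rpow_le_rpow_of_exponent_le (by linarith only [hNr]) (by linarith only [hε8])
        linarith only [h6, hzN, hpx]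
      exact hBig p hp (by exact_mod_cast h5) f₁ (mem_insert_of_mem (mem_insert_self _ _))) _ (fun m hm => hm)
    have h2 : ((Sq f₁ N A B).card : ℝ) ≤ 2 * ((B : ℝ) / (N : ℝ) ^ (1 / 4 : ℝ)) + (N : ℝ) ^ (667 / 1000 : ℝ) := by
      unfold Sq
      exact h1
    have hN0' : (0 : ℝ) < N := by linarith only [hNr]
    have h3 : (N : ℝ) ^ (667 / 1000 : ℝ) ≤ Bt / (N : ℝ) ^ (1 / 4 : ℝ) := by
      rw [le_div_iff₀ (by positivity), ← Real.rpow_add hN0']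
      have h4 : (N : ℝ) ^ (2 : ℝ) = (N : ℝ) ^ 2 := by norm_num
      rw [one_mul, h4] at q4
      linarith only [q4, hN2Br]
    have h5 : (B : ℝ) / (N : ℝ) ^ (1 / 4 : ℝ) ≤ Bt / (N : ℝ) ^ (1 / 4 : ℝ) := by
      apply div_le_div_of_nonneg_right _ (by positivity)
      rw [hBt]
      have : (1 : ℝ) ≤ 2 * K := by linarith only [hKr]
      exact le_mul_of_one_le_left hB0.le this
    linarith only [h2, h3, h5]
  -- the main terms
  have hDd : θ' * Bt ≤ (B : ℝ) - A := by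
    rw [← hθB]
    linarith only [hAB]
  have hDB : (B : ℝ) - A ≤ Bt := by
    have h1 : (0 : ℝ) ≤ A := Nat.cast_nonneg _
    have h2 : (B : ℝ) ≤ Bt := by
      rw [hBt]
      have : (1 : ℝ) ≤ 2 * K := by linarith only [hKr]
      exact le_mul_of_one_le_left hB0.le this
    linarith only [h1, h2]
  have hB₀pos : (1 : ℝ) < B₀ := by
    have h1 : (16 : ℝ) ≤ B₀ := by
      have := hθN.trans (hA₀.trans hAB₀r)
      linarith only [this, hNr]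
    linarith only [h1]
  have hlogB₀ : 0 < Real.log B₀ := Real.log_pos hB₀pos
  have hLB₀ : L ≤ Real.log B₀ := by
    apply Real.log_le_log (by linarith only [hNr])
    exact hθN.trans (hA₀.trans hAB₀r)
  have hlogB₀' := hlogle B₀ (by linarith only [hB₀pos]) hB₀t
  have hT₁low := hN₄ B₀ (by
      have h2 : (N₄ : ℝ) ≤ B₀ := by linarith only [hθB1, hA₀, hAB₀r, hS₃0, hN₄0, hKr]
      exact_mod_cast h2) A₀ hAB₀ (by
      have h1 : θ / (4 * K) * B₀ ≤ θ / (4 * K) * Bt := mul_le_mul_of_nonneg_left hB₀t (by positivity)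
      have h2 : θ / (4 * K) * Bt = θ / 2 * B := by
        rw [hBt]
        field_simp
        ring
      linarith only [h1, h2, hA₀])
  have hT₁low' : ((B : ℝ) - A - s * Bt) / ((2 + s) * L) ≤ T₁ / ((α₀ : ℝ) + 1) := by
    have hα : (1 : ℝ) ≤ (α₀ : ℝ) + 1 := by
      have : (0 : ℝ) ≤ α₀ := Nat.cast_nonneg _
      linarith only [this]
    have hα0 : (0 : ℝ) < (α₀ : ℝ) + 1 := by linarith only [hα]
    have hnn : 0 ≤ (B : ℝ) - A - s * Bt := by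
      have h1 : s * Bt ≤ θ' * Bt := mul_le_mul_of_nonneg_right (by rw [hs]; linarith only [hθ'0]) hBt0.le
      linarith only [h1, hDd]
    rw [le_div_iff₀ hα0]
    refine le_trans ?_ hT₁low
    calc ((B : ℝ) - A - s * Bt) / ((2 + s) * L) * ((α₀ : ℝ) + 1) ≤
        ((B : ℝ) - A - s * Bt) / Real.log B₀ * ((α₀ : ℝ) + 1) := by
          apply mul_le_mul_of_nonneg_right _ hα0.le
          exact div_le_div_of_nonneg_left hnn hlogB₀ hlogB₀'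
      _ = (((α₀ : ℝ) + 1) * (B - A) - ((α₀ : ℝ) + 1) * (s * Bt)) / Real.log B₀ := by ring
      _ ≤ ((B₀ : ℝ) - A₀ - s * B₀) / Real.log B₀ := by
          apply div_le_div_of_nonneg_right _ hlogB₀.le
          have h1 : s * B₀ ≤ s * Bt := mul_le_mul_of_nonneg_left hB₀t hs0.le
          have h2 : s * Bt ≤ ((α₀ : ℝ) + 1) * (s * Bt) :=
            le_mul_of_one_le_left (mul_nonneg hs0.le hBt0.le) hα
          linarith only [h1, h2, hD₀]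
  have hα1 : (1 : ℝ) ≤ (α₁ : ℝ) + 1 := by
    have : (0 : ℝ) ≤ α₁ := Nat.cast_nonneg _
    linarith only [this]
  have hXle := hX2 (a := (A₁ : ℝ)) (b := (B₁ : ℝ)) (D := (B : ℝ) - A) (α := (α₁ : ℝ) + 1) (Bt := Bt) (s := s) hs0
    (Nat.cast_nonneg _) hAB₁r hα1 hB₁t hD₁
  have hT₂' : T₂ / ((α₁ : ℝ) + 1) ≤ (195 / 1000 * (((1 + s) * B₁ - A₁ / (1 + s)) / ((α₁ : ℝ) + 1)) +
      s * (N : ℝ) ^ 2) / L := by
    have hα0 : (0 : ℝ) < (α₁ : ℝ) + 1 := by linarith only [hα1]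
    rw [div_le_iff₀ hα0]
    refine hT₂.trans ?_
    have h0 : (195 / 1000 * (((1 + s) * B₁ - A₁ / (1 + s)) / ((α₁ : ℝ) + 1)) + s * (N : ℝ) ^ 2) / L * ((α₁ : ℝ) + 1) =
      (195 / 1000 * (((1 + s) * B₁ - A₁ / (1 + s)) / ((α₁ : ℝ) + 1)) + s * (N : ℝ) ^ 2) * ((α₁ : ℝ) + 1) / L :=
      div_mul_eq_mul_div _ _ _
    rw [h0]
    apply div_le_div_of_nonneg_right _ hL0.le
    have h1 : (195 / 1000 * (((1 + s) * B₁ - A₁ / (1 + s)) / ((α₁ : ℝ) + 1)) + s * (N : ℝ) ^ 2) * ((α₁ : ℝ) + 1) =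
      195 / 1000 * ((1 + s) * B₁ - A₁ / (1 + s)) + ((α₁ : ℝ) + 1) * (s * (N : ℝ) ^ 2) := by
      field_simp
    rw [h1]
    have h2 : s * (N : ℝ) ^ 2 ≤ ((α₁ : ℝ) + 1) * (s * (N : ℝ) ^ 2) :=
      le_mul_of_one_le_left (mul_nonneg hs0.le (sq_nonneg _)) hα1
    linarith only [h2]
  have hnum := Pool.Agent.Y484.CH.num.1
  have hbr := bracket (T₁ := T₁ / ((α₀ : ℝ) + 1)) (T₂ := T₂ / ((α₁ : ℝ) + 1)) (L := L) (B := Bt) (D := (B : ℝ) - A)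
    (K := K') (lb := LBc) (η := η) (θ := θ') (s := s) (X := ((1 + s) * B₁ - A₁ / (1 + s)) / ((α₁ : ℝ) + 1))
    (N2 := (N : ℝ) ^ 2) hL0 hK0 hθ'0 hθ'1 hs hT₁low' hT₂' hXle hN2Br hDd hDB hBt0 hη hnum
  -- the errors
  obtain ⟨her1, her2, her3⟩ := errs (κ := κ) hBt0 hL1 hLB₀ hM0 (by linarith only [q1]) hN2Br q3
  have her1' : L * (2 * (B₀ / Real.log B₀ ^ (κ + 3))) ≤ M / 5 * (Bt / L ^ (κ + 1)) := by
    refine le_trans ?_ her1
    apply mul_le_mul_of_nonneg_left _ hL0.le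
    apply mul_le_mul_of_nonneg_left _ (by norm_num)
    exact div_le_div_of_nonneg_right hB₀t (by positivity)
  have hmain := mainterm2 (κ := κ) hε0 hc₁p hφ hθ'0 hA0 hBt0 hL0 hK' hM hVlow hbr
  have hser : M₂ * (Bt * SS (insert f₀ (insert f₁ F)) B) ≤
      ε / (Nat.totient m₀ : ℝ) * V * (5 / 10000 * θ' * K' * Bt / L) := by
    rw [hM₂]
    exact serterm hε0 hφ (by positivity) hL0 hBt0
      (hN₇ N (by omega) B (by exact_mod_cast hNB) f₀ f₁ F hBig)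
  obtain ⟨hmain1, hmain2⟩ := hmain
  set X₀ : ℝ := ε / (Nat.totient m₀ : ℝ) * V * (5 / 10000 * θ' * K' * Bt / L) with hX₀
  have hφ₀ : (Nat.totient (f₀.1.natAbs * m₀) : ℝ) = ((α₀ : ℝ) + 1) * Nat.totient m₀ := by
    rw [totient_mul_sub (by omega) hm₀pos, hα₀]
    · push_cast
      ring
    · intro p hp hd
      apply hm₀p' p hp
      have := Nat.le_of_dvd (by omega) hd
      omega
  have hφ₁ : (Nat.totient (f₁.1.natAbs * m₀) : ℝ) = ((α₁ : ℝ) + 1) * Nat.totient m₀ := by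
    rw [totient_mul_sub (by omega) hm₀pos, hα₁]
    · push_cast
      ring
    · intro p hp hd
      apply hm₀p' p hp
      have := Nat.le_of_dvd (by omega) hd
      omega
  rw [div_div, div_div, ← hφ₀, ← hφ₁] at hmain2
  have hfin : X₀ / 2 ≤ ((Good f₀ f₁ F N A B ε).card : ℝ) :=
    concl2 hmain1 hmain2 hlow' hthree' her1' her2 hsq her3
  have hBBt : (B : ℝ) ≤ Bt := by
    rw [hBt]
    have : (1 : ℝ) ≤ 2 * K := by linarith only [hKr]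
    exact le_mul_of_one_le_left hB0.le this
  have hSS0 := SS_nonneg (insert f₀ (insert f₁ F)) B
  constructor
  · refine le_trans ?_ hfin
    have h1 : min M M₂ / 2 * B / Real.log B ^ (κ + 1) ≤ M / 2 * (Bt / L ^ (κ + 1)) := by
      rw [mul_div_assoc]
      apply mul_le_mul _ _ (by positivity) (by positivity)
      · linarith only [min_le_left M M₂]
      · exact div_le_div₀ hBt0.le hBBt (by positivity) (pow_le_pow_left₀ hL0.le hLBB _)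
    linarith only [h1, hmain1]
  · refine le_trans ?_ hfin
    have h1 : min M M₂ / 2 * B * SS (insert f₀ (insert f₁ F)) B ≤
        M₂ / 2 * (Bt * SS (insert f₀ (insert f₁ F)) B) := by
      rw [mul_assoc]
      apply mul_le_mul _ _ (by positivity) (by positivity)
      · linarith only [min_le_right M M₂]
      · exact mul_le_mul_of_nonneg_right hBBt hSS0
    linarith only [h1, hser]

end Pool.Agent.H76.CL
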