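import Pool.Agent.H76.CL.Final

/-!
# Chen's theorem for systems of linear forms with positive leading coefficients
-/

set_option autoImplicit false

namespace Pool.Agent.H76.CL

open Finset Filter

open Classical in
/-- Chen's theorem for systems of linear forms with positive leading coefficients, the two distinguished forms being
positive at `1`. -/
theorem chen_pos (k K : ℕ) (hk : 2 ≤ k) (hK1 : 1 ≤ K) (θ : ℝ) (hθ : 0 < θ) :
    ∃ ε c : ℝ, 0 < ε ∧ ε ≤ 1 / 16 ∧ 0 < c ∧ ∃ r B₀ : ℕ, ∀ B : ℕ, B₀ ≤ B → ∀ A : ℕ, (A : ℝ) + θ * B ≤ B →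
      ∀ G : Finset (ℤ × ℤ), G.card ≤ k → ∀ f₀ ∈ G, ∀ f₁ ∈ G, f₀ ≠ f₁ →
      (∀ f ∈ G, 1 ≤ f.1 ∧ f.1 ≤ K ∧ |f.2| ≤ (B : ℤ) ^ K) → |f₀.2| ≤ K * B → |f₁.2| ≤ K * B →
      1 ≤ f₀.1 + f₀.2 → 1 ≤ f₁.1 + f₁.2 → f₀.1 * f₁.2 - f₁.1 * f₀.2 ≠ 0 →
      Adm G →
      c * B / Real.log B ^ k ≤ ((Sys f₀ f₁ G A B r ε).card : ℝ) ∧
      c * B * SS G B ≤ ((Sys f₀ f₁ G A B r ε).card : ℝ) := by
  obtain ⟨θ', hθ'0, hθ'1, hθ'2⟩ : ∃ θ' : ℝ, 0 < θ' ∧ θ' ≤ θ ∧ θ' ≤ 1 / 4 :=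
    ⟨min θ (1 / 4), lt_min hθ (by norm_num), min_le_left _ _, min_le_right _ _⟩
  obtain ⟨ε, c, hε0, hε1, hc, r, B₀, hB₀⟩ := chen_sys k K hk hK1 θ' hθ'0 (by linarith)
  refine ⟨ε, c, hε0, hε1, hc, r, B₀ + 16, ?_⟩
  intro B hB A hAB G hG f₀ h₀ f₁ h₁ hne hco hb₀ hb₁ hp₀ hp₁ hD hAdm
  have hBr : (16 : ℝ) ≤ B := by exact_mod_cast (by omega : 16 ≤ B)
  set A' : ℕ := max A (B / 2) with hA'
  have hA'r : (A' : ℝ) + θ' * B ≤ B := by
    rw [hA']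
    rcases le_total A (B / 2) with h | h
    · rw [max_eq_right h]
      have h1 : ((B / 2 : ℕ) : ℝ) ≤ (B : ℝ) / 2 := Nat.cast_div_le
      have h2 : θ' * B ≤ 1 / 4 * B := mul_le_mul_of_nonneg_right hθ'2 (by linarith)
      linarith
    · rw [max_eq_left h]
      have h2 : θ' * B ≤ θ * B := mul_le_mul_of_nonneg_right hθ'1 (by linarith)
      linarith
  have hv : ∀ f : ℤ × ℤ, 1 ≤ f.1 → 1 ≤ f.1 + f.2 → ∀ n : ℤ, A' < n → n ≤ B → θ' * B ≤ (val f n : ℝ) := by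
    intro f h1 h2 n h3 h4
    have h5 : ((B / 2 : ℕ) : ℤ) < n := by
      have : ((B / 2 : ℕ) : ℤ) ≤ A' := by exact_mod_cast le_max_right _ _
      linarith
    have h6 : n ≤ val f n := by
      unfold val
      have h7 : 1 ≤ n := by omega
      nlinarith
    have h8 : (B : ℤ) ≤ 2 * n := by omega
    have h9 : (B : ℝ) ≤ 2 * (val f n : ℝ) := by
      have : (B : ℤ) ≤ 2 * val f n := by linarith
      exact_mod_cast this
    have h10 : θ' * B ≤ 1 / 4 * B := mul_le_mul_of_nonneg_right hθ'2 (by linarith)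
    linarith
  have hmain := hB₀ B (by omega) A' hA'r G hG f₀ h₀ f₁ h₁ hne
    (fun f hf => ⟨by have := (hco f hf).1; omega, by
      rw [abs_of_pos (by have := (hco f hf).1; omega)]
      exact (hco f hf).2.1, (hco f hf).2.2⟩) hb₀ hb₁ hD
    (fun n h1 h2 => ⟨hv f₀ (hco f₀ h₀).1 hp₀ n h1 h2, hv f₁ (hco f₁ h₁).1 hp₁ n h1 h2⟩) hAdm
  have hsub : Sys f₀ f₁ G A' B r ε ⊆ Sys f₀ f₁ G A B r ε := by
    intro n hn
    unfold Sys at hn ⊢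
    rw [mem_filter, mem_Ioc] at hn ⊢
    exact ⟨⟨lt_of_le_of_lt (le_max_left _ _) hn.1.1, hn.1.2⟩, hn.2⟩
  have hle : ((Sys f₀ f₁ G A' B r ε).card : ℝ) ≤ ((Sys f₀ f₁ G A B r ε).card : ℝ) := by
    exact_mod_cast card_le_card hsub
  exact ⟨hmain.1.trans hle, hmain.2.trans hle⟩

/-- a finite set inside a bounded set -/
theorem card_le_ncard {S : Finset ℕ} {T : Set ℕ} (x : ℕ) (h : ∀ n ∈ S, n ∈ T) (hT : ∀ n ∈ T, n ≤ x) :
    (S.card : ℝ) ≤ (T.ncard : ℝ) := by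
  have h1 : S.card ≤ T.ncard := by
    rw [← Set.ncard_coe_finset]
    exact Set.ncard_le_ncard (fun n hn => h n (mem_coe.1 hn))
      (Set.Finite.subset (Set.finite_Iic x) (fun n hn => hT n hn))
  exact_mod_cast h1

/-- the conditions on a value, for natural numbers -/
theorem nat_val {f : ℤ × ℤ} {n m : ℕ} (h : val f n = (m : ℤ)) :
    (val f n).toNat = m ∧ (val f n).natAbs = m ∧ ∀ q : ℕ, (q : ℤ) ∣ val f n ↔ q ∣ m := by
  rw [h]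
  exact ⟨Int.toNat_natCast _, Int.natAbs_natCast _, fun q => Int.natCast_dvd_natCast⟩

end Pool.Agent.H76.CL
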