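import Pool.Agent.H76.CL.Base
import Pool.Agent.H76.CH.Prep

/-!
# Chen's theorem for linear forms: auxiliary estimates
-/

set_option autoImplicit false

namespace Pool.Agent.H76.CL

open Finset Filter Pool.Agent.W23.DC Pool.Agent.Y660.RP Pool.Agent.Y843.CH Pool.Agent.H76.CH

/-- the product of the densities -/
theorem V_low2 (k z : ℕ) (hz : 2 * k + 2 ≤ z) : ∃ c : ℝ, 0 < c ∧ ∀ N : ℕ, z ≤ N → ∀ ε : ℝ, ∀ g : ℕ → ℝ,
    (∀ p ∈ P1 N z ε, g p ≤ k / ((p : ℝ) - 1)) → c / Real.log N ^ k ≤ ∏ p ∈ P1 N z ε, (1 - g p) := by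
  obtain ⟨c, hc, h⟩ := V_low k z hz
  refine ⟨c, hc, fun N hN ε g hg => ?_⟩
  refine (h N hN ε (fun p => k / ((p : ℝ) - 1)) (fun p _ => rfl)).trans ?_
  apply Finset.prod_le_prod
  · intro p hp
    obtain ⟨⟨h1, h2⟩, h3, h4⟩ := mem_P1.1 hp
    have h5 : (2 * k + 3 : ℝ) ≤ p := by exact_mod_cast (by omega : 2 * k + 3 ≤ p)
    have hk : (0 : ℝ) ≤ k := Nat.cast_nonneg _
    have h6 : (k : ℝ) / ((p : ℝ) - 1) ≤ 1 := by
      rw [div_le_iff₀ (by linarith)]
      linarith
    linarith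
  · intro p hp
    have := hg p hp
    linarith

/-- primes in an interval -/
theorem T_low2 (η θ : ℝ) (hη : 0 < η) (hθ : 0 < θ) : ∃ B₀ : ℕ, ∀ B : ℕ, B₀ ≤ B → ∀ A : ℕ, A ≤ B →
    θ * B ≤ A → ((B : ℝ) - A - η * B) / Real.log B ≤ (((Ioc A B).filter Nat.Prime).card : ℝ) := by
  obtain ⟨δ, hδ0, hδη, hδ1⟩ : ∃ δ : ℝ, 0 < δ ∧ δ ≤ η / 8 ∧ δ ≤ 1 / 2 :=
    ⟨min (η / 8) (1 / 2), lt_min (by positivity) (by norm_num), min_le_left _ _, min_le_right _ _⟩
  have h1 := Metric.tendsto_atTop.1 Pool.Agent.Helper923.PNT.pi_tendsto δ hδ0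
  obtain ⟨X, hX⟩ := h1
  have ev := (Real.tendsto_log_atTop.comp (tendsto_natCast_atTop_atTop (R := ℝ))).eventually_ge_atTop
    (Real.log (1 / θ) / δ + 1)
  obtain ⟨B₁, hB₁⟩ := eventually_atTop.1 ev
  refine ⟨max (max B₁ 4) (⌈(|X| + 2) / θ⌉₊), fun B hB A hAB hBA => ?_⟩
  have hBB₁ : B₁ ≤ B := (le_max_left _ _).trans ((le_max_left _ _).trans hB)
  have hB4 : 4 ≤ B := (le_max_right _ _).trans ((le_max_left _ _).trans hB)
  have hBX : ⌈(|X| + 2) / θ⌉₊ ≤ B := (le_max_right _ _).trans hB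
  have hlog := hB₁ B hBB₁
  simp only [Function.comp] at hlog
  have hAX2 : |X| + 2 ≤ A := by
    have h2 := Nat.ceil_le.1 hBX
    rw [div_le_iff₀ hθ] at h2
    linarith
  have hAX : X ≤ A := by
    have := le_abs_self X
    linarith
  have hBX' : X ≤ B := hAX.trans (by exact_mod_cast hAB)
  have hAr : (2 : ℝ) ≤ A := by
    have := abs_nonneg X
    linarith
  have hBr : (4 : ℝ) ≤ B := by exact_mod_cast hB4
  have hlA : 0 < Real.log A := Real.log_pos (by linarith)
  have hlB : 0 < Real.log B := Real.log_pos (by linarith)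
  have hpA := hX A hAX
  have hpB := hX B hBX'
  rw [Real.dist_eq, abs_lt, Nat.floor_natCast] at hpA hpB
  have gA : (Nat.primeCounting A : ℝ) * Real.log A ≤ (1 + δ) * A := by
    have h2 : (Nat.primeCounting A : ℝ) * Real.log A / A ≤ 1 + δ := by linarith [hpA.2]
    rwa [div_le_iff₀ (by linarith)] at h2
  have gB : (1 - δ) * B ≤ (Nat.primeCounting B : ℝ) * Real.log B := by
    have h2 : 1 - δ ≤ (Nat.primeCounting B : ℝ) * Real.log B / B := by linarith [hpB.1]
    rwa [le_div_iff₀ (by linarith)] at h2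
  have hlAB : (1 - δ) * Real.log B ≤ Real.log A := by
    have h2 : Real.log B ≤ Real.log (1 / θ) + Real.log A := by
      rw [← Real.log_mul (by positivity) (by linarith)]
      apply Real.log_le_log (by linarith)
      rw [one_div_mul_eq_div, le_div_iff₀ hθ]
      linarith
    have h3 : Real.log (1 / θ) ≤ δ * Real.log B := by
      have h4 : Real.log (1 / θ) / δ ≤ Real.log B := by linarith
      rw [div_le_iff₀ hδ0] at h4
      linarith
    linarith
  have hcard : (((Ioc A B).filter Nat.Prime).card : ℝ) = Nat.primeCounting B - Nat.primeCounting A := by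
    have h2 : ∀ x : ℕ, Nat.primeCounting x = ((Icc 1 x).filter Nat.Prime).card := by
      intro x
      rw [Nat.primeCounting, Nat.primeCounting', Nat.count_eq_card_filter_range]
      congr 1
      ext p
      simp only [mem_filter, mem_range, mem_Icc]
      constructor
      · rintro ⟨h3, h4⟩
        exact ⟨⟨h4.one_lt.le, by omega⟩, h4⟩
      · rintro ⟨⟨h3, h4⟩, h5⟩
        exact ⟨by omega, h5⟩
    rw [h2, h2]
    exact pi1_sub hAB
  rw [hcard, div_le_iff₀ hlB]
  have k1 : (Nat.primeCounting A : ℝ) * ((1 - δ) * Real.log B) ≤ (1 + δ) * A :=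
    (mul_le_mul_of_nonneg_left hlAB (Nat.cast_nonneg _)).trans gA
  have k2 : (Nat.primeCounting A : ℝ) * Real.log B ≤ A + 4 * δ * B := by
    have hAB' : (A : ℝ) ≤ B := by exact_mod_cast hAB
    have hB0 : (0 : ℝ) ≤ δ * B := by positivity
    have g1 : δ * A ≤ δ * B := mul_le_mul_of_nonneg_left hAB' hδ0.le
    have g2 : 1 / 2 * (δ * B) ≤ (1 - δ) * (δ * B) := mul_le_mul_of_nonneg_right (by linarith) hB0
    have h3 : (1 + δ) * A ≤ (1 - δ) * (A + 4 * δ * B) := by nlinarith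
    have h4 : (1 - δ) * ((Nat.primeCounting A : ℝ) * Real.log B) ≤ (1 - δ) * (A + 4 * δ * B) := by
      calc (1 - δ) * ((Nat.primeCounting A : ℝ) * Real.log B) =
          (Nat.primeCounting A : ℝ) * ((1 - δ) * Real.log B) := by ring
        _ ≤ (1 + δ) * A := k1
        _ ≤ _ := h3
    exact le_of_mul_le_mul_left h4 (by linarith)
  have hB0 : (0 : ℝ) ≤ B := by linarith
  nlinarith [mul_le_mul_of_nonneg_right hδη hB0]

/-- integers `n` for which `f n` is divisible by the square of a prime of middle size -/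
theorem squares2 (N B A : ℕ) (hN : 16 ≤ N) (f : ℤ × ℤ)
    (hf : ∀ p : ℕ, p.Prime → (N : ℝ) ^ (1 / 4 : ℝ) ≤ p → ¬ (p : ℤ) ∣ f.1) (W : ℕ → Prop) [DecidablePred W]
    (hW : ∀ m, W m → ∃ p : ℕ, p.Prime ∧ (p : ℤ) ^ 2 ∣ val f m ∧ (N : ℝ) ^ (1 / 4 : ℝ) ≤ p ∧
      (p : ℝ) < (N : ℝ) ^ (667 / 1000 : ℝ)) :
    (((Ioc A B).filter W).card : ℝ) ≤ 2 * ((B : ℝ) / (N : ℝ) ^ (1 / 4 : ℝ)) + (N : ℝ) ^ (667 / 1000 : ℝ) := by
  classical
  have hNr : (16 : ℝ) ≤ N := by exact_mod_cast hN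
  set x := (N : ℝ) ^ (1 / 4 : ℝ) with hx
  set y := (N : ℝ) ^ (667 / 1000 : ℝ) with hy
  have hx2 : 2 ≤ x := by
    calc (2 : ℝ) = (16 : ℝ) ^ (1 / 4 : ℝ) := by
          rw [show (16 : ℝ) = 2 ^ (4 : ℝ) by norm_num, ← Real.rpow_mul (by norm_num)]
          norm_num
      _ ≤ x := Real.rpow_le_rpow (by norm_num) hNr (by norm_num)
  have hy0 : 0 ≤ y := by positivity
  set M := ⌊y⌋₊ with hM
  obtain ⟨m, hm⟩ : ∃ m : ℕ, ⌈x⌉₊ = m + 1 :=
    Nat.exists_eq_succ_of_ne_zero (Nat.ceil_pos.2 (by linarith)).ne'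
  have hmx : x ≤ (m : ℝ) + 1 := by
    have := Nat.le_ceil x
    rw [hm] at this
    exact_mod_cast this
  have hm1 : (1 : ℝ) ≤ m := by linarith
  have hm0 : m ≠ 0 := by
    rintro rfl
    norm_num at hm1
  set P := (Ioc m M) with hP
  have hsub : (Ioc A B).filter W ⊆ (P.filter Nat.Prime).biUnion
      (fun p => (Ioc A B).filter (fun m : ℕ => (p : ℤ) ^ 2 ∣ val f m)) := by
    intro m' hm'
    rw [mem_filter] at hm'
    obtain ⟨p, h1, h2, h3, h4⟩ := hW m' hm'.2
    rw [mem_biUnion]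
    refine ⟨p, ?_, ?_⟩
    · rw [hP, mem_filter, mem_Ioc]
      have h5 := Nat.ceil_le.2 h3
      exact ⟨⟨by omega, Nat.le_floor h4.le⟩, h1⟩
    · rw [mem_filter]
      exact ⟨hm'.1, h2⟩
  have hcard : ∀ p ∈ P.filter Nat.Prime, (((Ioc A B).filter (fun m : ℕ => (p : ℤ) ^ 2 ∣ val f m)).card : ℝ) ≤
      (B : ℝ) * ((p : ℝ) ^ 2)⁻¹ + 1 := by
    intro p hp
    rw [hP, mem_filter, mem_Ioc] at hp
    have hp2 : 0 < p := hp.2.pos
    rcases Finset.eq_empty_or_nonempty ((Ioc A B).filter (fun m : ℕ => (p : ℤ) ^ 2 ∣ val f m)) with h0 | ⟨c, hc⟩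
    · rw [h0, card_empty, Nat.cast_zero]
      positivity
    rw [mem_filter, mem_Ioc] at hc
    have hpx : x ≤ p := by
      have : (m : ℝ) + 1 ≤ p := by exact_mod_cast hp.1.1
      linarith
    have hpf := hf p hp.2 hpx
    have hcop : IsCoprime ((p : ℤ) ^ 2) f.1 :=
      (((Nat.prime_iff_prime_int.1 hp.2).coprime_iff_not_dvd).2 hpf).pow_left
    have h1 : (Ioc A B).filter (fun m : ℕ => (p : ℤ) ^ 2 ∣ val f m) ⊆
        (Ioc 0 (0 + B)).filter (fun m => m ≡ c [MOD p ^ 2]) := by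
      intro m hm
      rw [mem_filter, mem_Ioc] at hm ⊢
      refine ⟨⟨by omega, by omega⟩, ?_⟩
      have h2 := dvd_sub hm.2 hc.2
      rw [val_sub] at h2
      have h3 := hcop.dvd_of_dvd_mul_left h2
      exact (Nat.modEq_iff_dvd.2 (by exact_mod_cast h3)).symm
    have h3 := Pool.Agent.Y843.QD.card_class 0 B (p ^ 2) c (by positivity)
    have h4 := (abs_le.1 h3).2
    have h5 : (((Ioc A B).filter (fun m : ℕ => (p : ℤ) ^ 2 ∣ val f m)).card : ℝ) ≤
        (((Ioc 0 (0 + B)).filter (fun m => m ≡ c [MOD p ^ 2])).card : ℝ) := by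
      exact_mod_cast card_le_card h1
    have e : (B : ℝ) * ((p : ℝ) ^ 2)⁻¹ = (B : ℝ) / ((p ^ 2 : ℕ) : ℝ) := by
      push_cast
      ring
    rw [e]
    linarith
  have hB0 : (0 : ℝ) ≤ B := Nat.cast_nonneg _
  calc (((Ioc A B).filter W).card : ℝ) ≤
      (((P.filter Nat.Prime).biUnion (fun p => (Ioc A B).filter (fun m : ℕ => (p : ℤ) ^ 2 ∣ val f m))).card : ℝ) := by
        exact_mod_cast card_le_card hsub
    _ ≤ ∑ p ∈ P.filter Nat.Prime, (((Ioc A B).filter (fun m : ℕ => (p : ℤ) ^ 2 ∣ val f m)).card : ℝ) := by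
        exact_mod_cast card_biUnion_le
    _ ≤ ∑ p ∈ P.filter Nat.Prime, ((B : ℝ) * ((p : ℝ) ^ 2)⁻¹ + 1) := sum_le_sum hcard
    _ ≤ ∑ p ∈ P, ((B : ℝ) * ((p : ℝ) ^ 2)⁻¹ + 1) := by
        apply sum_le_sum_of_subset_of_nonneg (filter_subset _ _)
        intro p _ _
        positivity
    _ = B * ∑ p ∈ P, ((p : ℝ) ^ 2)⁻¹ + P.card := by
        rw [sum_add_distrib, mul_sum]
        simp
    _ ≤ 2 * ((B : ℝ) / x) + y := by
        have h1 : (P.card : ℝ) ≤ y := by
          rw [hP, Nat.card_Ioc]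
          have h2 : ((M - m : ℕ) : ℝ) ≤ M := by exact_mod_cast Nat.sub_le _ _
          have h3 : (M : ℝ) ≤ y := Nat.floor_le hy0
          linarith
        have h2 : ∑ p ∈ P, ((p : ℝ) ^ 2)⁻¹ ≤ 2 / x := by
          rcases Nat.lt_or_ge M m with h | h
          · rw [hP, Ioc_eq_empty (by omega), sum_empty]
            positivity
          · have h3 := sum_Ioc_inv_sq_le_sub (α := ℝ) hm0 h
            have h4 : (0 : ℝ) ≤ (M : ℝ)⁻¹ := by positivity
            have h5 : (m : ℝ)⁻¹ ≤ 2 / x := by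
              rw [inv_eq_one_div, div_le_div_iff₀ (by linarith) (by linarith)]
              linarith
            linarith
        have h3 := mul_le_mul_of_nonneg_left h2 hB0
        have e : (B : ℝ) * (2 / x) = 2 * (B / x) := by ring
        linarith

/-- the range of the values of a form -/
theorem endpoints {f : ℤ × ℤ} {A B K : ℕ} (hf : f.1 ≠ 0) (hfK : |f.1| ≤ K) (hAB : A < B) {X : ℤ}
    (hX : ∀ n : ℤ, A < n → n ≤ B → X ≤ val f n) (hXK : (K : ℤ) + 1 ≤ X) :
    ∃ A' B' : ℕ, (B' : ℤ) = A' + |f.1| * ((B : ℤ) - A) ∧ X - K - 1 ≤ A' ∧ (B' : ℤ) ≤ K * B + |f.2| ∧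
      (∀ n : ℤ, A < n → n ≤ B → (A' : ℤ) < val f n ∧ val f n ≤ B') ∧
      (∀ n : ℤ, (A' : ℤ) < val f n → val f n ≤ B' → A < n ∧ n ≤ B) := by
  have hK1 := (abs_le.1 hfK).1
  have hK2 := (abs_le.1 hfK).2
  have hB0 : (0 : ℤ) ≤ B := Int.natCast_nonneg _
  have hA0 : (0 : ℤ) ≤ A := Int.natCast_nonneg _
  have hABz : (A : ℤ) < B := by exact_mod_cast hAB
  have h2 := le_abs_self f.2
  rcases lt_or_gt_of_ne hf with h | h
  · have hX1 := hX B hABz le_rfl
    have e1 : val f A = val f B + |f.1| * ((B : ℤ) - A) := by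
      unfold val
      rw [abs_of_neg h]
      ring
    have hpos : 0 < |f.1| * ((B : ℤ) - A) := mul_pos (abs_pos.2 hf) (by linarith)
    refine ⟨(val f B - 1).toNat, (val f A - 1).toNat, ?_, ?_, ?_, ?_, ?_⟩
    · rw [Int.toNat_of_nonneg (by linarith), Int.toNat_of_nonneg (by linarith), e1]
      ring
    · rw [Int.toNat_of_nonneg (by linarith)]
      linarith
    · rw [Int.toNat_of_nonneg (by linarith)]
      unfold val
      have h3 : f.1 * A ≤ 0 := mul_nonpos_of_nonpos_of_nonneg h.le hA0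
      have h4 : (0 : ℤ) ≤ K * B := by positivity
      linarith
    · intro n hn1 hn2
      rw [Int.toNat_of_nonneg (by linarith), Int.toNat_of_nonneg (by linarith)]
      unfold val
      constructor
      · nlinarith
      · nlinarith
    · intro n hn1 hn2
      rw [Int.toNat_of_nonneg (by linarith)] at hn1 hn2
      unfold val at hn1 hn2
      constructor
      · by_contra hc
        push Not at hc
        nlinarith
      · by_contra hc
        push Not at hc
        nlinarith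
  · have hX1 := hX (A + 1) (by linarith) (by linarith)
    have e0 : val f (A + 1) = val f A + f.1 := by unfold val; ring
    have e1 : val f B = val f A + |f.1| * ((B : ℤ) - A) := by
      unfold val
      rw [abs_of_pos h]
      ring
    have hpos : 0 < |f.1| * ((B : ℤ) - A) := mul_pos (abs_pos.2 hf) (by linarith)
    refine ⟨(val f A).toNat, (val f B).toNat, ?_, ?_, ?_, ?_, ?_⟩
    · rw [Int.toNat_of_nonneg (by linarith), Int.toNat_of_nonneg (by linarith), e1]
    · rw [Int.toNat_of_nonneg (by linarith)]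
      linarith
    · rw [Int.toNat_of_nonneg (by linarith)]
      unfold val
      have h3 : f.1 * B ≤ K * B := mul_le_mul_of_nonneg_right hK2 hB0
      linarith
    · intro n hn1 hn2
      rw [Int.toNat_of_nonneg (by linarith), Int.toNat_of_nonneg (by linarith)]
      unfold val
      constructor
      · nlinarith
      · nlinarith
    · intro n hn1 hn2
      rw [Int.toNat_of_nonneg (by linarith)] at hn1 hn2
      unfold val at hn1 hn2
      constructor
      · by_contra hc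
        push Not at hc
        nlinarith
      · by_contra hc
        push Not at hc
        nlinarith

/-- admissible systems of linear forms -/
def Adm (G : Finset (ℤ × ℤ)) : Prop := ∀ p : ℕ, p.Prime → ∃ n : ℤ, ∀ f ∈ G, ¬ (p : ℤ) ∣ val f n

/-- an admissible class modulo the product of the small primes -/
theorem crt {G : Finset (ℤ × ℤ)} (hA : Adm G) (z : ℕ) : ∃ a : ℕ,
    ∀ f ∈ G, ∀ p : ℕ, p.Prime → p ≤ z → ¬ (p : ℤ) ∣ val f a := by
  classical
  set t := (range (z + 1)).filter Nat.Prime with ht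
  have key : ∀ p : ℕ, ∃ r : ℕ, p.Prime → ∀ f ∈ G, ¬ (p : ℤ) ∣ val f r := by
    intro p
    by_cases hp : p.Prime
    · obtain ⟨r, hr⟩ := hA p hp
      obtain ⟨c, -, hc2⟩ := exists_class p hp.pos (-r)
      refine ⟨c, fun _ f hf h => hr f hf ?_⟩
      exact (dvd_val_iff (by simpa [sub_eq_add_neg] using hc2)).1 h
    · exact ⟨0, fun h => absurd h hp⟩
  choose r hr using key
  have hpw : Set.Pairwise (t : Set ℕ) (Function.onFun Nat.Coprime (fun p : ℕ => p)) := by
    intro p hp q hq hpq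
    rw [mem_coe, ht, mem_filter] at hp hq
    exact (Nat.coprime_primes hp.2 hq.2).2 hpq
  obtain ⟨a, ha⟩ := Nat.chineseRemainderOfFinset r (fun p => p) t
    (fun p hp => (mem_filter.1 hp).2.ne_zero) hpw
  have hmem : ∀ p : ℕ, p.Prime → p ≤ z → p ∈ t := by
    intro p hp hpz
    rw [ht, mem_filter, mem_range]
    exact ⟨by omega, hp⟩
  refine ⟨a, ?_⟩
  intro f hf p hp hpz hd
  have h2 : a ≡ r p [MOD p] := ha p (hmem p hp hpz)
  apply hr p hp f hf
  have h3 : (p : ℤ) ∣ (r p : ℤ) - a := Nat.modEq_iff_dvd.1 h2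
  exact (dvd_val_iff h3).2 hd

end Pool.Agent.H76.CL
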